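import Pool.Agent.H459R3.NS.Final

/-!
The operator `|D| = (-Δ)^(1/2)` on smooth periodic functions and the helical parts of the vorticity.
-/

open MeasureTheory Set Filter Topology
open scoped ContDiff ENNReal

namespace Pool.Agent.X97.NSH

open H459R3.NS

/-- `2 π |k|` with the Euclidean length of `k`. -/
noncomputable def wt (k : K3) : ℝ := 2 * Real.pi * Real.sqrt (∑ j, (k j : ℝ) ^ 2)

/-- `|D| f = (-Δ)^(1/2) f`: the periodic function with the Fourier coefficients `2 π |k| f̂(k)`. -/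
noncomputable def absD (f : V → ℝ) (x : V) : ℝ :=
  (∑' k : K3, ((wt k : ℂ) * fr f k) * ee k x).re

/-- The curl of a vector field. -/
noncomputable def curl (v : V → V) (x : V) : V :=
  ![pd 1 (fun y => v y 2) x - pd 2 (fun y => v y 1) x,
    pd 2 (fun y => v y 0) x - pd 0 (fun y => v y 2) x,
    pd 0 (fun y => v y 1) x - pd 1 (fun y => v y 0) x]

/-- The part of the curl of `v` with helicity of the sign `s = 1` or `s = -1`:
`(curl v + s |D| v) / 2`. -/
noncomputable def hel (s : ℝ) (v : V → V) (x : V) : V :=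
  fun i => (curl v x i + s * absD (fun y => v y i) x) / 2

lemma wt_nonneg (k : K3) : 0 ≤ wt k := by
  unfold wt
  have := Real.pi_pos
  positivity

lemma wt_zero : wt 0 = 0 := by
  unfold wt
  simp

lemma wt_neg (k : K3) : wt (-k) = wt k := by
  unfold wt
  simp

lemma N_le_sqrt (k : K3) : (N k : ℝ) ≤ Real.sqrt (∑ j, (k j : ℝ) ^ 2) := by
  apply Real.le_sqrt_of_sq_le
  have h := N_pow_le k 2
  simpa [sq_abs] using h

lemma sqrt_le_N (k : K3) : Real.sqrt (∑ j, (k j : ℝ) ^ 2) ≤ 2 * N k := by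
  apply Real.sqrt_le_iff.mpr
  refine ⟨by positivity, ?_⟩
  have h1 : ∀ j, (k j : ℝ) ^ 2 ≤ (N k : ℝ) ^ 2 := by
    intro j
    have h := (N_le_iff k (N k)).1 le_rfl j
    have h1 : |(k j : ℝ)| ≤ N k := by exact_mod_cast h
    rw [← sq_abs (k j : ℝ)]
    gcongr
  calc ∑ j, (k j : ℝ) ^ 2 ≤ ∑ _j : Fin 3, (N k : ℝ) ^ 2 := Finset.sum_le_sum fun j _ => h1 j
    _ ≤ _ := by
      simp
      nlinarith [sq_nonneg (N k : ℝ)]

lemma N_le_wt (k : K3) : (N k : ℝ) ≤ wt k := by
  unfold wt
  have h1 := N_le_sqrt k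
  have h2 := Real.pi_gt_three
  have h3 : (0 : ℝ) ≤ Real.sqrt (∑ j, (k j : ℝ) ^ 2) := Real.sqrt_nonneg _
  nlinarith

lemma wt_le_N (k : K3) : wt k ≤ 13 * N k := by
  unfold wt
  have h1 := sqrt_le_N k
  have h2 := Real.pi_lt_d2
  have h3 : (0 : ℝ) ≤ N k := by positivity
  have h4 := Real.pi_pos
  calc 2 * Real.pi * Real.sqrt (∑ j, (k j : ℝ) ^ 2) ≤ 2 * Real.pi * (2 * N k) := by gcongr
    _ ≤ _ := by nlinarith

lemma wt_sq (k : K3) : wt k ^ 2 = ∑ j, (2 * Real.pi * (k j : ℝ)) ^ 2 := by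
  unfold wt
  rw [mul_pow, Real.sq_sqrt (Finset.sum_nonneg fun _ _ => sq_nonneg _), Finset.mul_sum]
  exact Finset.sum_congr rfl fun j _ => by ring

/-- multiplication of a rapidly decreasing sequence by the weight -/
lemma rap_wt {a : K3 → ℂ} (ha : Rap a) : Rap (fun k => (wt k : ℂ) * a k) := by
  intro n
  have h := (ha (n + 1)).mul_left 13
  refine Summable.of_nonneg_of_le (fun k => by positivity) (fun k => ?_) h
  rw [norm_mul, Complex.norm_real, Real.norm_eq_abs, abs_of_nonneg (wt_nonneg k)]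
  have h1 := wt_le_N k
  calc (N k : ℝ) ^ n * (wt k * ‖a k‖) ≤ (N k : ℝ) ^ n * ((13 * N k) * ‖a k‖) := by gcongr
    _ = _ := by ring

lemma fr_neg (f : V → ℝ) (k : K3) : fr f (-k) = (starRingEnd ℂ) (fr f k) := by
  unfold fr fc
  rw [← integral_conj]
  congr 1
  funext x
  rw [map_mul, ← ee_neg, neg_neg, Complex.conj_ofReal]

lemma S_real {b : K3 → ℂ} (hb : ∀ k, b (-k) = (starRingEnd ℂ) (b k)) (x : V) :
    (((S b x).re : ℝ) : ℂ) = S b x := by
  have e1 : (starRingEnd ℂ) (S b x) = S b x := by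
    unfold S
    rw [Complex.conj_tsum, ← (Equiv.neg K3).tsum_eq]
    refine tsum_congr fun k => ?_
    simp only [Equiv.neg_apply, map_mul, hb, Complex.conj_conj, ee_neg]
  exact Complex.conj_eq_iff_re.mp e1

lemma absD_coe {f : V → ℝ} (x : V) :
    ((absD f x : ℝ) : ℂ) = S (fun k => (wt k : ℂ) * fr f k) x := by
  have h := S_real (b := fun k => (wt k : ℂ) * fr f k) (fun k => by
    rw [wt_neg, fr_neg, map_mul, Complex.conj_ofReal]) x
  exact h

lemma absD_cont {f : V → ℝ} (hf : SP f) : Continuous (absD f) :=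
  Complex.continuous_re.comp (S_continuous (rap_wt (rap_fr hf)).summable)

/-- pairing with a real Fourier series -/
lemma pair_S {b : K3 → ℂ} (hb : Summable b) {g : V → ℝ} (hg : Continuous g) :
    HasSum (fun k => b k * (starRingEnd ℂ) (fr g k)) (∫ x in cube, S b x * (g x : ℂ)) := by
  have h := integral_S_mul hb (g := fun x => (g x : ℂ)) (Complex.continuous_ofReal.comp hg)
  have e : ∀ k, ∫ x in cube, ee k x * (g x : ℂ) = (starRingEnd ℂ) (fr g k) := by
    intro k
    rw [← fr_neg]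
    unfold fr fc
    rw [neg_neg]
  simp_rw [e] at h
  exact h

lemma pair_absD {f g : V → ℝ} (hf : SP f) (hg : Continuous g) :
    HasSum (fun k => wt k * (fr f k * (starRingEnd ℂ) (fr g k)).re)
      (∫ x in cube, absD f x * g x) := by
  have h := pair_S (rap_wt (rap_fr hf)).summable hg
  have e : (∫ x in cube, S (fun k => (wt k : ℂ) * fr f k) x * (g x : ℂ)) =
      ((∫ x in cube, absD f x * g x : ℝ) : ℂ) := by
    rw [← integral_complex_ofReal]
    congr 1
    funext x
    rw [← absD_coe]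
    push_cast
    rfl
  rw [e] at h
  have h2 := Complex.hasSum_re h
  rw [Complex.ofReal_re] at h2
  have e2 : (fun k => wt k * (fr f k * (starRingEnd ℂ) (fr g k)).re) =
      fun k => (((wt k : ℂ) * fr f k) * (starRingEnd ℂ) (fr g k)).re := by
    funext k
    rw [mul_assoc, Complex.re_ofReal_mul]
  rw [e2]
  exact h2

end Pool.Agent.X97.NSH
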