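import Pool.Agent.X97.NSH.Interp

/-!
Embeddings of the velocity and of the helical parts of the vorticity.
-/

open MeasureTheory Set Filter Topology
open scoped ContDiff ENNReal

namespace Pool.Agent.X97.NSH

open H459R3.NS

/-- the exponent of the Sobolev embedding of order `σ` -/
noncomputable def ex (σ : ℝ) : ℝ := 6 / (3 - 2 * σ)

lemma ex_ge {σ : ℝ} (h0 : 0 ≤ σ) (h1 : σ < 3 / 2) : 2 ≤ ex σ := by
  unfold ex
  rw [le_div_iff₀ (by linarith)]
  linarith

lemma enorm_rpow (z b : ℝ) (hz : 0 ≤ z) (hb : 0 ≤ b) :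
    ENNReal.ofReal z ^ b = ENNReal.ofReal (z ^ b) := ENNReal.ofReal_rpow_of_nonneg hz hb

lemma emb {σ : ℝ} (h0 : 0 ≤ σ) (h1 : σ < 3 / 2) : ∃ C : ℝ, 0 ≤ C ∧ ∀ a : K3 → ℂ, Rap a →
    a 0 = 0 → eLpNorm (S a) (ENNReal.ofReal (ex σ)) (volume.restrict cube) ≤
      ENNReal.ofReal (C * Real.sqrt (Msq σ a)) := by
  have hex := ex_ge h0 h1
  have hb0 : ENNReal.ofReal (ex σ) ≠ 0 := (ENNReal.ofReal_pos.mpr (by linarith)).ne'
  rcases eq_or_lt_of_le h0 with h | h
  · refine ⟨1, zero_le_one, fun a ha _ => ?_⟩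
    have e1 : ex σ = 2 := by unfold ex; rw [← h]; norm_num
    have e2 : Msq σ a = ∑' k, ‖a k‖ ^ 2 := by
      unfold Msq
      refine tsum_congr fun k => ?_
      rw [← h, mul_zero, Real.rpow_zero, one_mul]
    rw [e2, one_mul, eLpNorm_eq_lintegral_rpow_enorm_toReal hb0 ENNReal.ofReal_ne_top,
      ENNReal.toReal_ofReal (by linarith), e1]
    have e3 : ∀ x, ‖S a x‖ₑ ^ (2 : ℝ) = ENNReal.ofReal (‖S a x‖ ^ 2) := by
      intro x
      rw [← ofReal_norm, enorm_rpow _ _ (norm_nonneg _) (by norm_num)]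
      norm_cast
    simp_rw [e3]
    have hc : Continuous fun x => ‖S a x‖ ^ 2 := (S_continuous ha.summable).norm.pow 2
    rw [← ofReal_integral_eq_lintegral_ofReal (f := fun x => ‖S a x‖ ^ 2)
      (integrableOn_cube hc) (ae_of_all _ fun x => sq_nonneg _), integral_norm_sq ha.summable,
      n2_sq, enorm_rpow _ _ (tsum_nonneg fun _ => by positivity) (by norm_num),
      ← Real.sqrt_eq_rpow]
  · obtain ⟨C, hC0, hC⟩ := sobF h h1
    refine ⟨C ^ (1 / ex σ), Real.rpow_nonneg hC0 _, fun a ha ha0 => ?_⟩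
    have hb : (0 : ℝ) < ex σ := by linarith
    rw [eLpNorm_eq_lintegral_rpow_enorm_toReal hb0 ENNReal.ofReal_ne_top,
      ENNReal.toReal_ofReal hb.le]
    have e3 : ∀ x, ‖S a x‖ₑ ^ (ex σ) = ENNReal.ofReal (‖S a x‖ ^ (ex σ)) := by
      intro x
      rw [← ofReal_norm, enorm_rpow _ _ (norm_nonneg _) hb.le]
    simp_rw [e3]
    have h2 := hC a ha ha0
    have hM := Real.sqrt_nonneg (Msq σ a)
    calc (∫⁻ x in cube, ENNReal.ofReal (‖S a x‖ ^ (ex σ))) ^ (1 / ex σ)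
        ≤ (ENNReal.ofReal (C * Real.sqrt (Msq σ a) ^ (ex σ))) ^ (1 / ex σ) := by
          gcongr
          exact h2
      _ = ENNReal.ofReal (C ^ (1 / ex σ) * Real.sqrt (Msq σ a)) := by
          rw [enorm_rpow _ _ (by positivity) (by positivity),
            Real.mul_rpow hC0 (by positivity), ← Real.rpow_mul hM, mul_one_div_cancel hb.ne',
            Real.rpow_one]

lemma Msq_le {σ : ℝ} (h0 : 0 ≤ σ) (h1 : σ ≤ 1 / 2) {c : K3 → ℂ} (hc : Rap c) {f : V → ℝ}
    (hf : SP f) (h : ∀ k, ‖c k‖ ≤ wt k * ‖fr f k‖) : Msq σ c ≤ hs (2 * σ + 2) f := by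
  unfold Msq hs
  refine (summ_Msq h0 (by linarith) hc).tsum_le_tsum (fun k => ?_)
    (summ_hs hf (by linarith) (by linarith))
  have hw := wt_nonneg k
  have hN := N_le_wt k
  calc (N k : ℝ) ^ (2 * σ) * ‖c k‖ ^ 2 ≤ wt k ^ (2 * σ) * (wt k * ‖fr f k‖) ^ 2 := by
        gcongr
        exact h k
    _ = wt k ^ (2 * σ + 2) * ‖fr f k‖ ^ 2 := by
        rcases eq_or_lt_of_le hw with h6 | h6
        · rw [← h6, zero_mul, zero_pow two_ne_zero, mul_zero, Real.zero_rpow (by linarith),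
            zero_mul]
        · rw [Real.rpow_add h6, mul_pow]
          norm_cast
          ring

lemma Msq_le_u {σ : ℝ} (h0 : 1 / 2 ≤ σ) (h1 : σ ≤ 3 / 2) {f : V → ℝ} (hf : SP f) :
    Msq σ (({0}ᶜ : Set K3).indicator (fr f)) ≤ hs (2 * σ) f := by
  unfold Msq hs
  refine (summ_Msq (by linarith) h1 ((rap_fr hf).ind _)).tsum_le_tsum (fun k => ?_)
    (summ_hs hf (by linarith) (by linarith))
  have hw := wt_nonneg k
  have hN := N_le_wt k
  have h2 := norm_indicator_le' ({0}ᶜ : Set K3) (fr f) k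
  gcongr

/-- the square roots with an added constant -/
noncomputable def RX (E : ℝ) (v : V → V) : ℝ := Real.sqrt (Xv v + E)

/-- the square roots with an added constant -/
noncomputable def RY (E : ℝ) (v : V → V) : ℝ := Real.sqrt (Yv v + E)

lemma hs_le_R {v : V → V} (hv : ∀ i, SP (fun y => v y i)) {E : ℝ} (hE : 0 ≤ E) {t : ℝ}
    (h1 : 1 ≤ t) (h3 : t ≤ 3) (i : Fin 3) :
    Real.sqrt (hs t fun y => v y i) ≤ RX E v ^ ((3 - t) / 2) * RY E v ^ ((t - 1) / 2) := by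
  have hX := Xv_nonneg v
  have hY := Yv_nonneg v
  have h4 := hs_le_v hv h1 h3 i
  have h5 : hs t (fun y => v y i) ≤ (RX E v ^ ((3 - t) / 2) * RY E v ^ ((t - 1) / 2)) ^ 2 := by
    refine h4.trans ?_
    have e1 : (RX E v ^ ((3 - t) / 2)) ^ 2 = (Xv v + E) ^ ((3 - t) / 2) := by
      unfold RX
      rw [← Real.rpow_natCast, ← Real.rpow_mul (Real.sqrt_nonneg _), mul_comm ((3 - t) / 2),
        Real.rpow_mul (Real.sqrt_nonneg _), Real.rpow_natCast, Real.sq_sqrt (by positivity)]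
    have e2 : (RY E v ^ ((t - 1) / 2)) ^ 2 = (Yv v + E) ^ ((t - 1) / 2) := by
      unfold RY
      rw [← Real.rpow_natCast, ← Real.rpow_mul (Real.sqrt_nonneg _), mul_comm ((t - 1) / 2),
        Real.rpow_mul (Real.sqrt_nonneg _), Real.rpow_natCast, Real.sq_sqrt (by positivity)]
    rw [mul_pow, e1, e2]
    have g1 : 0 ≤ (3 - t) / 2 := by linarith
    have g2 : 0 ≤ (t - 1) / 2 := by linarith
    gcongr
    · linarith
    · linarith
  rw [Real.sqrt_le_left]
  · exact h5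
  · unfold RX RY
    positivity

end Pool.Agent.X97.NSH
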