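import Pool.Agent.X97.NSH.Emb

/-!
Embeddings of the velocity and of the helical parts of the vorticity.
-/

open MeasureTheory Set Filter Topology
open scoped ContDiff ENNReal

namespace Pool.Agent.X97.NSH

open H459R3.NS

lemma ex_enn_one_le {σ : ℝ} (h0 : 0 ≤ σ) (h1 : σ < 3 / 2) : 1 ≤ ENNReal.ofReal (ex σ) := by
  have := ex_ge h0 h1
  rw [← ENNReal.ofReal_one]
  exact ENNReal.ofReal_le_ofReal (by linarith)

lemma norm_le_sum (w : V) : ‖w‖ ≤ ∑ i, |w i| := by
  rw [pi_norm_le_iff_of_nonneg (Finset.sum_nonneg fun _ _ => abs_nonneg _)]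
  intro i
  rw [Real.norm_eq_abs]
  exact Finset.single_le_sum (f := fun i => |w i|) (fun _ _ => abs_nonneg _) (Finset.mem_univ i)

/-- the `L^p` norm of the maximum norm is at most the sum of those of the components -/
lemma eLp_norm_le {w : V → V} (hw : Continuous w) {p : ℝ≥0∞} (hp : 1 ≤ p) :
    eLpNorm (fun x => ‖w x‖) p (volume.restrict cube) ≤
      ∑ i, eLpNorm (fun x => w x i) p (volume.restrict cube) := by
  have hc : ∀ i, Continuous fun x => |w x i| := fun i => ((continuous_apply i).comp hw).abs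
  have h1 : eLpNorm (fun x => ‖w x‖) p (volume.restrict cube) ≤
      eLpNorm (fun x => ∑ i, |w x i|) p (volume.restrict cube) := by
    refine eLpNorm_mono_real fun x => ?_
    rw [norm_norm]
    exact norm_le_sum _
  refine h1.trans ?_
  have e : (fun x => ∑ i, |w x i|) = ∑ i, fun x => |w x i| := by
    funext x
    simp
  rw [e]
  refine (eLpNorm_sum_le (fun i _ => (hc i).aestronglyMeasurable) hp).trans (le_of_eq ?_)
  refine Finset.sum_congr rfl fun i _ => ?_
  refine eLpNorm_congr_norm_ae (ae_of_all _ fun x => ?_)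
  rw [Real.norm_eq_abs, abs_abs, Real.norm_eq_abs]

lemma RX_nonneg (E : ℝ) (v : V → V) : 0 ≤ RX E v := Real.sqrt_nonneg _

lemma RY_nonneg (E : ℝ) (v : V → V) : 0 ≤ RY E v := Real.sqrt_nonneg _

/-- the velocity -/
lemma emb_u {σ : ℝ} (h0 : 1 / 2 ≤ σ) (h1 : σ < 3 / 2) : ∃ C : ℝ, 0 ≤ C ∧ ∀ (v : V → V) (E : ℝ),
    (∀ i, SP (fun y => v y i)) → energy v ≤ E →
    eLpNorm (fun x => ‖v x‖) (ENNReal.ofReal (ex σ)) (volume.restrict cube) ≤
      ENNReal.ofReal (C * (RX E v ^ (3 / 2 - σ) * RY E v ^ (σ - 1 / 2))) := by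
  obtain ⟨C, hC0, hC⟩ := emb (show 0 ≤ σ by linarith) h1
  refine ⟨3 * (1 + C), by positivity, fun v E hv hE => ?_⟩
  have hE0 : 0 ≤ E := (energy_nonneg v).trans hE
  have hvc : Continuous v := continuous_pi fun i => (hv i).cont
  set Z : ℝ := RX E v ^ (3 / 2 - σ) * RY E v ^ (σ - 1 / 2) with hZ
  have hZ0 : 0 ≤ Z := mul_nonneg (Real.rpow_nonneg (RX_nonneg _ _) _)
    (Real.rpow_nonneg (RY_nonneg _ _) _)
  have hp1 := ex_enn_one_le (show 0 ≤ σ by linarith) h1
  refine (eLp_norm_le hvc hp1).trans ?_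
  have hi : ∀ i, eLpNorm (fun x => v x i) (ENNReal.ofReal (ex σ)) (volume.restrict cube) ≤
      ENNReal.ofReal ((1 + C) * Z) := by
    intro i
    set a : K3 → ℂ := fr (fun y => v y i) with ha
    have hrap : Rap a := rap_fr (hv i)
    set a' : K3 → ℂ := ({0}ᶜ : Set K3).indicator a with ha'
    have hrap' : Rap a' := hrap.ind _
    have ha0 : a' 0 = 0 := by
      rw [ha', indicator_of_notMem (by simp)]
    have hdec : ∀ x, ((v x i : ℝ) : ℂ) = a 0 + S a' x := by
      intro x
      rw [← S_fr (hv i) x, S_split hrap {0} x]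
      congr 1
      unfold S
      rw [tsum_eq_single 0]
      · rw [indicator_of_mem (mem_singleton _), ee_zero, mul_one]
      · intro k hk
        rw [indicator_of_notMem (by simpa using hk), zero_mul]
    -- the mean
    have hmean : ‖a 0‖ ≤ Z := by
      have h2 : ‖a 0‖ ^ 2 ≤ E := by
        have h3 : ‖a 0‖ ^ 2 ≤ ∑' k, ‖a k‖ ^ 2 :=
          (summable_sq hrap.summable).le_tsum 0 fun _ _ => sq_nonneg _
        rw [← n2_sq, ha, n2_fr (hv i)] at h3
        refine h3.trans (le_trans ?_ hE)
        exact Finset.single_le_sum (f := fun i => ∫ x in cube, v x i ^ 2)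
          (fun _ _ => integral_nonneg fun _ => sq_nonneg _) (Finset.mem_univ i)
      have h4 : ‖a 0‖ ≤ Real.sqrt E := Real.le_sqrt_of_sq_le h2
      have h5 : Real.sqrt E ≤ RX E v := Real.sqrt_le_sqrt (by linarith [Xv_nonneg v])
      have h6 : Real.sqrt E ≤ RY E v := Real.sqrt_le_sqrt (by linarith [Yv_nonneg v])
      have hs0 := Real.sqrt_nonneg E
      have h7 : Real.sqrt E = Real.sqrt E ^ (3 / 2 - σ) * Real.sqrt E ^ (σ - 1 / 2) := by
        rcases eq_or_lt_of_le hs0 with h8 | h8
        · rw [← h8, Real.zero_rpow (by linarith), zero_mul]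
        · rw [← Real.rpow_add h8]
          norm_num
      refine h4.trans ?_
      rw [h7, hZ]
      have g1 : 0 ≤ 3 / 2 - σ := by linarith
      have g2 : 0 ≤ σ - 1 / 2 := by linarith
      gcongr
      exact Real.rpow_nonneg (RX_nonneg _ _) _
    have hM : Real.sqrt (Msq σ a') ≤ Z := by
      refine (Real.sqrt_le_sqrt (Msq_le_u h0 h1.le (hv i))).trans ?_
      have := hs_le_R hv hE0 (t := 2 * σ) (by linarith) (by linarith) i
      refine this.trans (le_of_eq ?_)
      rw [hZ]
      congr 2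
      · ring
      · ring
    have h9 : eLpNorm (fun x => v x i) (ENNReal.ofReal (ex σ)) (volume.restrict cube) =
        eLpNorm (fun x => a 0 + S a' x) (ENNReal.ofReal (ex σ)) (volume.restrict cube) := by
      refine eLpNorm_congr_norm_ae (ae_of_all _ fun x => ?_)
      rw [← hdec, Complex.norm_real]
    rw [h9]
    have h10 := eLpNorm_add_le (μ := volume.restrict cube) (p := ENNReal.ofReal (ex σ))
      (f := fun _ : V => a 0) (g := S a') aestronglyMeasurable_const
      (S_continuous hrap'.summable).aestronglyMeasurable hp1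
    refine le_trans h10 ?_
    have h11 : eLpNorm (fun _ : V => a 0) (ENNReal.ofReal (ex σ)) (volume.restrict cube) ≤
        ENNReal.ofReal Z := by
      have hne : ENNReal.ofReal (ex σ) ≠ 0 := by
        intro h; rw [h] at hp1; exact absurd hp1 (by norm_num)
      rw [eLpNorm_const' _ hne ENNReal.ofReal_ne_top, Measure.restrict_apply_univ, volume_cube,
        ENNReal.one_rpow, mul_one, ← ofReal_norm]
      exact ENNReal.ofReal_le_ofReal hmean
    have h12 := hC a' hrap' ha0
    calc _ ≤ ENNReal.ofReal Z + ENNReal.ofReal (C * Z) := by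
          refine add_le_add h11 (h12.trans (ENNReal.ofReal_le_ofReal ?_))
          gcongr
      _ = _ := by
          rw [← ENNReal.ofReal_add hZ0 (by positivity)]
          congr 1
          ring
  calc _ ≤ ∑ _i : Fin 3, ENNReal.ofReal ((1 + C) * Z) := Finset.sum_le_sum fun i _ => hi i
    _ = _ := by
      rw [Finset.sum_const, Finset.card_univ, Fintype.card_fin, nsmul_eq_mul]
      rw [show ((3 : ℕ) : ℝ≥0∞) = ENNReal.ofReal 3 by norm_num,
        ← ENNReal.ofReal_mul (by norm_num)]
      congr 1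
      ring

/-- first order terms -/
lemma emb_one {t : ℝ} (h0 : 0 ≤ t) (h1 : t ≤ 1 / 2) : ∃ C : ℝ, 0 ≤ C ∧ ∀ (v : V → V) (E : ℝ)
    (i : Fin 3) (c : K3 → ℂ) (g : V → ℝ), (∀ i, SP (fun y => v y i)) → 0 ≤ E → Rap c →
    (∀ k, ‖c k‖ ≤ wt k * ‖fr (fun y => v y i) k‖) → (∀ x, ((g x : ℝ) : ℂ) = S c x) →
    eLpNorm g (ENNReal.ofReal (ex t)) (volume.restrict cube) ≤
      ENNReal.ofReal (C * (RX E v ^ (1 / 2 - t) * RY E v ^ (1 / 2 + t))) := by
  obtain ⟨C, hC0, hC⟩ := emb h0 (show t < 3 / 2 by linarith)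
  refine ⟨C, hC0, fun v E i c g hv hE hc hck hg => ?_⟩
  have hc0 : c 0 = 0 := by
    have := hck 0
    rw [wt_zero, zero_mul] at this
    exact norm_le_zero_iff.mp this
  have h9 : eLpNorm g (ENNReal.ofReal (ex t)) (volume.restrict cube) =
      eLpNorm (S c) (ENNReal.ofReal (ex t)) (volume.restrict cube) := by
    refine eLpNorm_congr_norm_ae (ae_of_all _ fun x => ?_)
    rw [← hg, Complex.norm_real]
  rw [h9]
  refine (hC c hc hc0).trans (ENNReal.ofReal_le_ofReal ?_)
  have h2 := Msq_le h0 h1 hc (hv i) hck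
  have h3 := hs_le_R hv hE (t := 2 * t + 2) (by linarith) (by linarith) i
  have e1 : (3 - (2 * t + 2)) / 2 = 1 / 2 - t := by ring
  have e2 : (2 * t + 2 - 1) / 2 = 1 / 2 + t := by ring
  rw [e1, e2] at h3
  gcongr
  exact (Real.sqrt_le_sqrt h2).trans h3

/-- the helical parts of the vorticity -/
lemma emb_hel {t : ℝ} (h0 : 0 ≤ t) (h1 : t ≤ 1 / 2) : ∃ C : ℝ, 0 ≤ C ∧ ∀ (v : V → V) (E s : ℝ),
    (∀ i, SP (fun y => v y i)) → 0 ≤ E → |s| = 1 →
    eLpNorm (fun x => ‖hel s v x‖) (ENNReal.ofReal (ex t)) (volume.restrict cube) ≤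
      ENNReal.ofReal (C * (RX E v ^ (1 / 2 - t) * RY E v ^ (1 / 2 + t))) := by
  obtain ⟨C, hC0, hC⟩ := emb_one h0 h1
  refine ⟨12 * C, by positivity, fun v E s hv hE hs => ?_⟩
  set Z : ℝ := RX E v ^ (1 / 2 - t) * RY E v ^ (1 / 2 + t) with hZ
  have hp1 := ex_enn_one_le h0 (show t < 3 / 2 by linarith)
  set p : ℝ≥0∞ := ENNReal.ofReal (ex t) with hp
  have hpd : ∀ j l, eLpNorm (fun x => pd j (fun y => v y l) x) p (volume.restrict cube) ≤
      ENNReal.ofReal (C * Z) := by
    intro j l
    refine hC v E l (D j (fr fun y => v y l)) _ hv hE ((rap_fr (hv l)).D j) (fun k => ?_)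
      (fun x => ?_)
    · rw [D, norm_mul]
      gcongr
      rw [norm_mul, norm_mul, norm_mul, Complex.norm_I, mul_one, Complex.norm_real,
        Real.norm_eq_abs, abs_of_pos Real.pi_pos, Complex.norm_ofNat, Complex.norm_intCast]
      unfold wt
      have := Real.pi_pos
      gcongr
      apply Real.le_sqrt_of_sq_le
      rw [sq_abs]
      exact Finset.single_le_sum (f := fun j => (k j : ℝ) ^ 2) (fun _ _ => sq_nonneg _)
        (Finset.mem_univ j)
    · rw [← fr_pd (hv l), S_fr ((hv l).pd j)]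
  have hab : ∀ l, eLpNorm (absD fun y => v y l) p (volume.restrict cube) ≤
      ENNReal.ofReal (C * Z) := by
    intro l
    refine hC v E l _ _ hv hE (rap_wt (rap_fr (hv l))) (fun k => ?_) (fun x => absD_coe x)
    rw [norm_mul, Complex.norm_real, Real.norm_eq_abs, abs_of_nonneg (wt_nonneg k)]
  have hpc : ∀ j l, AEStronglyMeasurable (fun x => pd j (fun y => v y l) x)
      (volume.restrict cube) := fun j l => ((hv l).pd j).cont.aestronglyMeasurable
  refine (eLp_norm_le (hel_cont hv s) hp1).trans ?_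
  have key : ∀ (j l j' l' m : Fin 3), eLpNorm (fun x => ((pd j (fun y => v y l) x -
      pd j' (fun y => v y l') x) + s * absD (fun y => v y m) x) / 2) p (volume.restrict cube) ≤
      ENNReal.ofReal (4 * (C * Z)) := by
    intro j l j' l' m
    have hm : AEStronglyMeasurable (fun x => s * absD (fun y => v y m) x)
        (volume.restrict cube) := (continuous_const.mul (absD_cont (hv m))).aestronglyMeasurable
    have g1 : eLpNorm (fun x => ((pd j (fun y => v y l) x -
      pd j' (fun y => v y l') x) + s * absD (fun y => v y m) x) / 2) p (volume.restrict cube) ≤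
      eLpNorm (fun x => ((pd j (fun y => v y l) x -
      pd j' (fun y => v y l') x) + s * absD (fun y => v y m) x)) p (volume.restrict cube) := by
      refine eLpNorm_mono fun x => ?_
      rw [norm_div]
      exact div_le_self (norm_nonneg _) (by norm_num)
    have g2 := eLpNorm_add_le (μ := volume.restrict cube) (p := p)
      ((hpc j l).sub (hpc j' l')) hm hp1
    have g3 := eLpNorm_sub_le (μ := volume.restrict cube) (p := p) (hpc j l) (hpc j' l') hp1
    have g4 : eLpNorm (fun x => s * absD (fun y => v y m) x) p (volume.restrict cube) =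
        eLpNorm (absD fun y => v y m) p (volume.restrict cube) := by
      refine eLpNorm_congr_norm_ae (ae_of_all _ fun x => ?_)
      rw [norm_mul, Real.norm_eq_abs s, hs, one_mul]
    have hCZ : 0 ≤ C * Z := by
      have := RX_nonneg E v
      have := RY_nonneg E v
      positivity
    calc _ ≤ _ := g1
      _ ≤ _ := g2
      _ ≤ (ENNReal.ofReal (C * Z) + ENNReal.ofReal (C * Z)) + ENNReal.ofReal (C * Z) := by
          refine add_le_add (g3.trans (add_le_add (hpd j l) (hpd j' l'))) ?_
          rw [g4]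
          exact hab m
      _ ≤ _ := by
          rw [← ENNReal.ofReal_add hCZ hCZ, ← ENNReal.ofReal_add (by positivity) hCZ]
          apply ENNReal.ofReal_le_ofReal
          linarith
  have hi : ∀ i, eLpNorm (fun x => hel s v x i) p (volume.restrict cube) ≤
      ENNReal.ofReal (4 * (C * Z)) := by
    intro i
    fin_cases i
    · exact key 1 2 2 1 0
    · exact key 2 0 0 2 1
    · exact key 0 1 1 0 2
  calc _ ≤ ∑ _i : Fin 3, ENNReal.ofReal (4 * (C * Z)) := Finset.sum_le_sum fun i _ => hi i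
    _ = _ := by
      rw [Finset.sum_const, Finset.card_univ, Fintype.card_fin, nsmul_eq_mul]
      rw [show ((3 : ℕ) : ℝ≥0∞) = ENNReal.ofReal 3 by norm_num,
        ← ENNReal.ofReal_mul (by norm_num)]
      congr 1
      ring

end Pool.Agent.X97.NSH
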