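import Pool.Agent.X97.NSH.Sobo

/-!
Time derivative of the square of the homogeneous `H^(1/2)` norm.
-/

open MeasureTheory Set Filter Topology
open scoped ContDiff ENNReal

namespace Pool.Agent.X97.NSH

open H459R3.NS

/-- the square of the `H^(1/2)` norm of a scalar function -/
noncomputable def Xc (f : V → ℝ) : ℝ := ∑' k, wt k * ‖fr f k‖ ^ 2

/-- the square of the `H^(3/2)` norm of a scalar function -/
noncomputable def Yc (f : V → ℝ) : ℝ := ∑' k, wt k ^ 3 * ‖fr f k‖ ^ 2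

/-- a summable weight -/
noncomputable def PP (k : K3) : ℝ :=
  (1 / (1 + (k 0 : ℝ) ^ 2)) * ((1 / (1 + (k 1 : ℝ) ^ 2)) * (1 / (1 + (k 2 : ℝ) ^ 2)))

lemma PP_nonneg (k : K3) : 0 ≤ PP k := by unfold PP; positivity

lemma bd_PP {z C0 C1 : ℝ} (hz : 0 ≤ z) (k : K3) (h0 : z ≤ C0) (h1 : (N k : ℝ) ^ 6 * z ≤ C1) :
    z ≤ 64 * (C0 + C1) * PP k := by
  have hN : (0 : ℝ) ≤ N k := by positivity
  have h1' : (1 + (N k : ℝ)) ^ 6 * z ≤ 64 * (C0 + C1) := by
    have h2 : (1 + (N k : ℝ)) ^ 6 ≤ 64 * (1 + (N k : ℝ) ^ 6) := by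
      rcases le_total (N k : ℝ) 1 with h | h
      · have : (1 + (N k : ℝ)) ^ 6 ≤ (1 + 1) ^ 6 := by gcongr
        nlinarith [pow_nonneg hN 6]
      · have : (1 + (N k : ℝ)) ^ 6 ≤ ((N k : ℝ) + (N k : ℝ)) ^ 6 := by gcongr
        have e : ((N k : ℝ) + (N k : ℝ)) ^ 6 = 64 * (N k : ℝ) ^ 6 := by ring
        linarith
    calc (1 + (N k : ℝ)) ^ 6 * z
        ≤ (64 * (1 + (N k : ℝ) ^ 6)) * z := by gcongr
      _ = 64 * (z + (N k : ℝ) ^ 6 * z) := by ring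
      _ ≤ 64 * (C0 + C1) := by linarith
  have g0 := one_add_sq_le k 0
  have g1 := one_add_sq_le k 1
  have g2 := one_add_sq_le k 2
  have hprod : (1 + (k 0 : ℝ) ^ 2) * ((1 + (k 1 : ℝ) ^ 2) * (1 + (k 2 : ℝ) ^ 2))
      ≤ (1 + (N k : ℝ)) ^ 6 := by
    calc (1 + (k 0 : ℝ) ^ 2) * ((1 + (k 1 : ℝ) ^ 2) * (1 + (k 2 : ℝ) ^ 2))
        ≤ (1 + (N k : ℝ)) ^ 2 * ((1 + (N k : ℝ)) ^ 2 * (1 + (N k : ℝ)) ^ 2) := by gcongr
      _ = _ := by ring
  have hP : (0 : ℝ) < (1 + (k 0 : ℝ) ^ 2) * ((1 + (k 1 : ℝ) ^ 2) * (1 + (k 2 : ℝ) ^ 2)) := by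
    positivity
  have e : (64 * (C0 + C1)) * PP k
    = (64 * (C0 + C1)) / ((1 + (k 0 : ℝ) ^ 2) * ((1 + (k 1 : ℝ) ^ 2) * (1 + (k 2 : ℝ) ^ 2))) := by
    unfold PP
    field_simp
  rw [e, le_div_iff₀ hP, mul_comm]
  exact (mul_le_mul_of_nonneg_right hprod hz).trans h1'

variable {T : ℝ} {f : ℝ → V → ℝ}

lemma sp_slice (hf : ContDiffOn ℝ ∞ (fun z : ℝ × V => f z.1 z.2) (Ico 0 T ×ˢ univ))
    (hp : ∀ t ∈ Ico 0 T, Per (f t)) {t : ℝ} (ht : t ∈ Ico 0 T) : SP (f t) where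
  smooth := contDiff_slice hf ht
  per := hp t ht

lemma contDiffOn_iter (hf : ContDiffOn ℝ ∞ (fun z : ℝ × V => f z.1 z.2) (Ico 0 T ×ˢ univ))
    (j : Fin 3) (n : ℕ) :
    ContDiffOn ℝ ∞ (fun z : ℝ × V => (pd j)^[n] (f z.1) z.2) (Ico 0 T ×ˢ univ) := by
  induction n with
  | zero => exact hf
  | succ n ih =>
    simp only [Function.iterate_succ_apply']
    exact contDiffOn_pd (f := fun s => (pd j)^[n] (f s)) ih j

lemma norm_fr_le_of {g : V → ℝ} {C : ℝ} (h : ∀ x ∈ cube, |g x| ≤ C) (k : K3) : ‖fr g k‖ ≤ C := by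
  unfold fr fc
  have h1 := norm_setIntegral_le_of_norm_le_const (μ := volume) (s := cube)
    (f := fun x => ee (-k) x * (g x : ℂ)) (C := C)
    (by rw [volume_cube]; exact ENNReal.one_lt_top) (fun x hx => by
      rw [norm_mul, norm_ee, one_mul, Complex.norm_real]
      exact h x hx)
  refine h1.trans (le_of_eq ?_)
  rw [Measure.real, volume_cube]
  simp

lemma unif (hf : ContDiffOn ℝ ∞ (fun z : ℝ × V => f z.1 z.2) (Ico 0 T ×ˢ univ))
    (hp : ∀ t ∈ Ico 0 T, Per (f t)) {b : ℝ} (hb : b < T) (n : ℕ) :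
    ∃ C, 0 ≤ C ∧ ∀ s ∈ Icc 0 b, ∀ k, (N k : ℝ) ^ n * ‖fr (f s) k‖ ≤ C := by
  have hK : IsCompact (Icc 0 b ×ˢ cube) := isCompact_Icc.prod isCompact_Icc
  have hsub : Icc 0 b ×ˢ cube ⊆ Ico 0 T ×ˢ (univ : Set V) :=
    prod_mono (fun s hs => ⟨hs.1, hs.2.trans_lt hb⟩) (subset_univ _)
  have h1 : ∀ j : Fin 3, ∃ C, ∀ z ∈ Icc 0 b ×ˢ cube, ‖(pd j)^[n] (f z.1) z.2‖ ≤ C := fun j =>
    hK.exists_bound_of_continuousOn ((contDiffOn_iter hf j n).continuousOn.mono hsub)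
  choose C hC using h1
  refine ⟨∑ j, |C j|, Finset.sum_nonneg fun j _ => abs_nonneg _, fun s hs k => ?_⟩
  have hsT : s ∈ Ico 0 T := ⟨hs.1, hs.2.trans_lt hb⟩
  have h2 : ∀ j, |(k j : ℝ)| ^ n * ‖fr (f s) k‖ ≤ |C j| := by
    intro j
    have h3 : ‖fr ((pd j)^[n] (f s)) k‖ ≤ |C j| := norm_fr_le_of (fun x hx => by
      have := hC j (s, x) ⟨hs, hx⟩
      rw [Real.norm_eq_abs] at this
      exact this.trans (le_abs_self _)) k
    refine le_trans ?_ h3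
    rw [fr_iter (sp_slice hf hp hsT), norm_mul, norm_pow]
    gcongr
    rw [norm_mul, norm_mul, norm_mul, Complex.norm_I, mul_one, Complex.norm_real,
      Real.norm_eq_abs, abs_of_pos Real.pi_pos, Complex.norm_ofNat, Complex.norm_intCast]
    have h0 : 0 ≤ |(k j : ℝ)| := abs_nonneg _
    have := Real.pi_gt_three
    nlinarith
  calc (N k : ℝ) ^ n * ‖fr (f s) k‖ ≤ (∑ j, |(k j : ℝ)| ^ n) * ‖fr (f s) k‖ := by
        gcongr
        exact N_pow_le k n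
    _ = ∑ j, |(k j : ℝ)| ^ n * ‖fr (f s) k‖ := Finset.sum_mul _ _ _
    _ ≤ ∑ j, |C j| := Finset.sum_le_sum fun j _ => h2 j

lemma unif_dt (hf : ContDiffOn ℝ ∞ (fun z : ℝ × V => f z.1 z.2) (Ico 0 T ×ˢ univ))
    {a b : ℝ} (ha : 0 < a) (hb : b < T) :
    ∃ C, 0 ≤ C ∧ ∀ s ∈ Icc a b, ∀ k, ‖fr (dt f s) k‖ ≤ C := by
  have hK : IsCompact (Icc a b ×ˢ cube) := isCompact_Icc.prod isCompact_Icc
  have hsub : Icc a b ×ˢ cube ⊆ Ioo 0 T ×ˢ (univ : Set V) :=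
    prod_mono (fun s hs => ⟨ha.trans_le hs.1, hs.2.trans_lt hb⟩) (subset_univ _)
  have hO : IsOpen (Ioo 0 T ×ˢ (univ : Set V)) := isOpen_Ioo.prod isOpen_univ
  have hd : ContinuousOn (fun z : ℝ × V =>
      fderiv ℝ (fun z : ℝ × V => f z.1 z.2) z (1, 0)) (Ioo 0 T ×ˢ univ) :=
    ((mono_Ioo hf (n := 1) (by norm_cast)).continuousOn_fderiv_of_isOpen hO le_rfl).clm_apply
      continuousOn_const
  obtain ⟨C, hC⟩ := hK.exists_bound_of_continuousOn (hd.mono hsub)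
  refine ⟨|C|, abs_nonneg _, fun s hs k => norm_fr_le_of (fun x hx => ?_) k⟩
  rw [H459R3.NS.dt_eq hf ⟨ha.trans_le hs.1, hs.2.trans_lt hb⟩ x]
  have := hC (s, x) ⟨hs, hx⟩
  rw [Real.norm_eq_abs] at this
  exact this.trans (le_abs_self _)

lemma fr_re (g : V → ℝ) (hg : Continuous g) (k : K3) :
    (fr g k).re = ∫ x in cube, (ee (-k) x).re * g x := by
  unfold fr fc
  have hi : IntegrableOn (fun x => ee (-k) x * (g x : ℂ)) cube :=
    integrableOn_cube ((ee_continuous _).mul (Complex.continuous_ofReal.comp hg))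
  have := integral_re hi
  rw [← RCLike.re_eq_complex_re, ← this]
  congr 1
  funext x
  simp

lemma fr_im (g : V → ℝ) (hg : Continuous g) (k : K3) :
    (fr g k).im = ∫ x in cube, (ee (-k) x).im * g x := by
  unfold fr fc
  have hi : IntegrableOn (fun x => ee (-k) x * (g x : ℂ)) cube :=
    integrableOn_cube ((ee_continuous _).mul (Complex.continuous_ofReal.comp hg))
  have := integral_im hi
  rw [← RCLike.im_eq_complex_im, ← this]
  congr 1
  funext x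
  simp

lemma normsq_hasDerivAt (hf : ContDiffOn ℝ ∞ (fun z : ℝ × V => f z.1 z.2) (Ico 0 T ×ˢ univ))
    (hp : ∀ t ∈ Ico 0 T, Per (f t)) {t : ℝ} (ht : t ∈ Ioo 0 T) (k : K3) :
    HasDerivAt (fun s => ‖fr (f s) k‖ ^ 2)
      (2 * (fr (f t) k * (starRingEnd ℂ) (fr (dt f t) k)).re) t := by
  have hsm : ∀ s ∈ Ico 0 T, Continuous (f s) := fun s hs => (contDiff_slice hf hs).continuous
  have key : ∀ φ : V → ℝ, ContDiff ℝ ∞ φ → HasDerivAt (fun s => ∫ x in cube, φ x * f s x)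
      (∫ x in cube, φ x * dt f t x) t := by
    intro φ hφ
    have hF : ContDiffOn ℝ 1 (fun z : ℝ × V => φ z.2 * f z.1 z.2) (Ioo 0 T ×ˢ univ) :=
      ((hφ.comp contDiff_snd).of_le (by norm_cast)).contDiffOn.mul (mono_Ioo hf (by norm_cast))
    have h1 := hasDerivAt_int (F := fun s x => φ x * f s x) hF ht
    refine h1.congr_deriv ?_
    congr 1
    funext x
    have h2 : HasDerivAt (fun s => f s x) (dt f t x) t := by
      have := hasDerivAt_slice (F := f) (mono_Ioo hf (by norm_cast)) ht x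
      rwa [← H459R3.NS.dt_eq hf ht x] at this
    exact (h2.const_mul (φ x)).deriv
  have hee : ContDiff ℝ ∞ (ee (-k)) := ee_contDiff _
  have hre := key (fun x => (ee (-k) x).re) (Complex.reCLM.contDiff.comp hee)
  have him := key (fun x => (ee (-k) x).im) (Complex.imCLM.contDiff.comp hee)
  have hsq := (hre.pow 2).add (him.pow 2)
  have hev : (fun s => ‖fr (f s) k‖ ^ 2) =ᶠ[𝓝 t] fun s =>
      (∫ x in cube, (ee (-k) x).re * f s x) ^ 2 + (∫ x in cube, (ee (-k) x).im * f s x) ^ 2 := by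
    filter_upwards [Ioo_mem_nhds ht.1 ht.2] with s hs
    have hc := hsm s ⟨hs.1.le, hs.2⟩
    rw [← fr_re _ hc, ← fr_im _ hc, ← Complex.normSq_eq_norm_sq, Complex.normSq_apply]
    ring
  have hI : t ∈ Ico 0 T := ⟨ht.1.le, ht.2⟩
  refine (hsq.congr_of_eventuallyEq hev).congr_deriv ?_
  have hdc : Continuous (dt f t) := (contDiff_dt hf ht).continuous
  rw [← fr_re _ (hsm t hI), ← fr_im _ (hsm t hI), ← fr_re _ hdc, ← fr_im _ hdc]
  rw [Complex.mul_re, Complex.conj_re, Complex.conj_im]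
  push_cast
  ring

lemma wt_norm_bd {m : ℕ} {z C0 C1 : ℝ} (hz : 0 ≤ z) (k : K3) (h0 : (N k : ℝ) ^ m * z ≤ C0)
    (h1 : (N k : ℝ) ^ (m + 6) * z ≤ C1) : wt k ^ m * z ≤ 13 ^ m * (64 * (C0 + C1)) * PP k := by
  have h2 : wt k ^ m * z ≤ 13 ^ m * ((N k : ℝ) ^ m * z) := by
    have := wt_le_N k
    have h3 := wt_nonneg k
    calc wt k ^ m * z ≤ (13 * N k) ^ m * z := by gcongr
      _ = _ := by rw [mul_pow]; ring
  have h3 := bd_PP (z := (N k : ℝ) ^ m * z) (by positivity) k h0 (by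
    refine le_trans (le_of_eq ?_) h1
    rw [pow_add]; ring)
  calc wt k ^ m * z ≤ 13 ^ m * ((N k : ℝ) ^ m * z) := h2
    _ ≤ 13 ^ m * (64 * (C0 + C1) * PP k) := by gcongr
    _ = _ := by ring

lemma Xc_hasDerivAt (hf : ContDiffOn ℝ ∞ (fun z : ℝ × V => f z.1 z.2) (Ico 0 T ×ˢ univ))
    (hp : ∀ t ∈ Ico 0 T, Per (f t)) {t : ℝ} (ht : t ∈ Ioo 0 T) :
    HasDerivAt (fun s => Xc (f s)) (2 * ∫ x in cube, absD (f t) x * dt f t x) t := by
  obtain ⟨a, ha1, ha2⟩ := exists_between ht.1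
  obtain ⟨b, hb1, hb2⟩ := exists_between ht.2
  obtain ⟨C0, hC00, hC0⟩ := unif hf hp hb2 1
  obtain ⟨C1, hC10, hC1⟩ := unif hf hp hb2 7
  obtain ⟨D, hD0, hD⟩ := unif_dt hf ha1 hb2
  have hI : t ∈ Ico 0 T := ⟨ht.1.le, ht.2⟩
  have hsp := sp_slice hf hp hI
  have hu : Summable fun k : K3 => 2 * D * (13 ^ 1 * (64 * (C0 + C1)) * PP k) :=
    (summable_K3.mul_left _).mul_left _
  have hsub : ∀ s ∈ Ioo a b, s ∈ Icc 0 b ∧ s ∈ Icc a b ∧ s ∈ Ioo 0 T := fun s hs =>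
    ⟨⟨(ha1.trans hs.1).le, hs.2.le⟩, ⟨hs.1.le, hs.2.le⟩, ⟨ha1.trans hs.1, hs.2.trans hb2⟩⟩
  have key := hasDerivAt_tsum_of_isPreconnected (𝕜 := ℝ) (t := Ioo a b)
    (g := fun k s => wt k * ‖fr (f s) k‖ ^ 2)
    (g' := fun k s => wt k * (2 * (fr (f s) k * (starRingEnd ℂ) (fr (dt f s) k)).re))
    hu isOpen_Ioo isPreconnected_Ioo ?_ ?_ (y₀ := t) ⟨ha2, hb1⟩ ?_ (y := t) ⟨ha2, hb1⟩
  · refine key.congr_deriv ?_
    have h3 := pair_absD hsp (contDiff_dt hf ht).continuous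
    rw [← h3.tsum_eq, ← tsum_mul_left]
    exact tsum_congr fun k => by ring
  · intro k s hs
    exact (normsq_hasDerivAt hf hp (hsub s hs).2.2 k).const_mul _
  · intro k s hs
    obtain ⟨h1, h2, h3⟩ := hsub s hs
    have e1 : ‖wt k * (2 * (fr (f s) k * (starRingEnd ℂ) (fr (dt f s) k)).re)‖ ≤
        2 * D * (wt k ^ 1 * ‖fr (f s) k‖) := by
      rw [norm_mul, norm_mul, Real.norm_eq_abs, Real.norm_eq_abs, Real.norm_eq_abs,
        abs_of_nonneg (wt_nonneg k), abs_two]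
      have h4 := Complex.abs_re_le_norm (fr (f s) k * (starRingEnd ℂ) (fr (dt f s) k))
      rw [norm_mul, RCLike.norm_conj] at h4
      have h5 := hD s h2 k
      have h6 := wt_nonneg k
      calc wt k * (2 * |(fr (f s) k * (starRingEnd ℂ) (fr (dt f s) k)).re|) ≤
          wt k * (2 * (‖fr (f s) k‖ * D)) := by
            gcongr
            refine h4.trans ?_
            gcongr
        _ = _ := by ring
    refine e1.trans ?_
    have h7 := wt_norm_bd (m := 1) (norm_nonneg (fr (f s) k)) k (hC0 s h1 k)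
      (hC1 s h1 k)
    gcongr
  · have h4 : Summable fun k => wt k * ‖fr (f t) k‖ ^ 2 := by
      have h5 := (rap_wt (rap_fr hsp)).summable.norm
      have hM : ∀ k, ‖fr (f t) k‖ ≤ ∑' m, ‖fr (f t) m‖ := fun k =>
        (rap_fr hsp).summable.norm.le_tsum k fun _ _ => norm_nonneg _
      refine Summable.of_nonneg_of_le (fun k => mul_nonneg (wt_nonneg k) (sq_nonneg _))
        (fun k => ?_) (h5.mul_left (∑' m, ‖fr (f t) m‖))
      rw [norm_mul, Complex.norm_real, Real.norm_eq_abs, abs_of_nonneg (wt_nonneg k), sq]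
      have h6 := wt_nonneg k
      calc wt k * (‖fr (f t) k‖ * ‖fr (f t) k‖) ≤
          wt k * ((∑' m, ‖fr (f t) m‖) * ‖fr (f t) k‖) := by
            gcongr
            exact hM k
        _ = _ := by ring
    exact h4

lemma fr_continuousOn (hf : ContDiffOn ℝ ∞ (fun z : ℝ × V => f z.1 z.2) (Ico 0 T ×ˢ univ))
    (k : K3) : ContinuousOn (fun s => ‖fr (f s) k‖ ^ 2) (Ico 0 T) := by
  have key : ∀ φ : V → ℝ, Continuous φ → ContinuousOn (fun s => ∫ x in cube, φ x * f s x)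
      (Ico 0 T) := by
    intro φ hφ
    exact continuousOn_int (F := fun s x => φ x * f s x)
      ((hφ.comp continuous_snd).continuousOn.mul hf.continuousOn)
  have hre := key (fun x => (ee (-k) x).re) (Complex.continuous_re.comp (ee_continuous _))
  have him := key (fun x => (ee (-k) x).im) (Complex.continuous_im.comp (ee_continuous _))
  refine ((hre.pow 2).add (him.pow 2)).congr fun s hs => ?_
  have hc : Continuous (f s) := (contDiff_slice hf hs).continuous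
  show ‖fr (f s) k‖ ^ 2 = (∫ x in cube, (ee (-k) x).re * f s x) ^ 2 +
    (∫ x in cube, (ee (-k) x).im * f s x) ^ 2
  rw [← fr_re _ hc, ← fr_im _ hc, ← Complex.normSq_eq_norm_sq, Complex.normSq_apply]
  ring

lemma wsum_continuousOn (hf : ContDiffOn ℝ ∞ (fun z : ℝ × V => f z.1 z.2) (Ico 0 T ×ˢ univ))
    (hp : ∀ t ∈ Ico 0 T, Per (f t)) (m : ℕ) :
    ContinuousOn (fun s => ∑' k, wt k ^ m * ‖fr (f s) k‖ ^ 2) (Ico 0 T) := by
  intro t ht
  obtain ⟨b, hb1, hb2⟩ := exists_between ht.2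
  obtain ⟨B, hB0, hB⟩ := unif hf hp hb2 0
  obtain ⟨C0, hC00, hC0⟩ := unif hf hp hb2 m
  obtain ⟨C1, hC10, hC1⟩ := unif hf hp hb2 (m + 6)
  have h1 : ContinuousOn (fun s => ∑' k, wt k ^ m * ‖fr (f s) k‖ ^ 2) (Icc 0 b) := by
    refine continuousOn_tsum (u := fun k : K3 => B * (13 ^ m * (64 * (C0 + C1)) * PP k)) ?_
      ((summable_K3.mul_left _).mul_left _) ?_
    · intro k
      exact (continuousOn_const.mul (fr_continuousOn hf k)).mono
        (fun s hs => ⟨hs.1, hs.2.trans_lt hb2⟩)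
    · intro k s hs
      have h2 := hB s hs k
      rw [pow_zero, one_mul] at h2
      have h3 := wt_norm_bd (m := m) (norm_nonneg (fr (f s) k)) k (hC0 s hs k) (hC1 s hs k)
      have h4 := wt_nonneg k
      rw [norm_mul, norm_pow, norm_pow, norm_norm, Real.norm_eq_abs, abs_of_nonneg h4]
      calc wt k ^ m * ‖fr (f s) k‖ ^ 2 = ‖fr (f s) k‖ * (wt k ^ m * ‖fr (f s) k‖) := by ring
        _ ≤ B * (13 ^ m * (64 * (C0 + C1)) * PP k) := by gcongr
  refine (h1 t ⟨ht.1, hb1.le⟩).mono_of_mem_nhdsWithin ?_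
  rw [mem_nhdsWithin]
  exact ⟨Iio b, isOpen_Iio, hb1, fun s hs => ⟨hs.2.1, hs.1.le⟩⟩

end Pool.Agent.X97.NSH
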