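import Pool.Agent.X97.NSH.Abs

/-!
The fractional Sobolev inequality for Fourier series on the torus.
-/

open MeasureTheory Set Filter Topology
open scoped ContDiff ENNReal

namespace Pool.Agent.X97.NSH

open H459R3.NS

/-- the box of frequencies of size at most `n` -/
noncomputable def box3 (n : ℕ) : Finset K3 := Finset.Icc (fun _ => -(n : ℤ)) (fun _ => (n : ℤ))

lemma mem_box3 (k : K3) (n : ℕ) : k ∈ box3 n ↔ N k ≤ n := by
  unfold box3
  rw [Finset.mem_Icc, N_le_iff]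
  constructor
  · rintro ⟨h1, h2⟩ j
    exact abs_le.mpr ⟨h1 j, h2 j⟩
  · intro h
    exact ⟨fun j => (abs_le.mp (h j)).1, fun j => (abs_le.mp (h j)).2⟩

lemma card_box3 (n : ℕ) : (box3 n).card = (2 * n + 1) ^ 3 := by
  unfold box3
  rw [Pi.card_Icc]
  simp only [Int.card_Icc, Finset.prod_const, Finset.card_univ, Fintype.card_fin]
  congr 1
  omega

lemma bern {s : ℝ} (hs : 0 < s) (n : ℕ) :
    min 1 s * ((n : ℝ) + 1) ^ (s - 1) ≤ ((n : ℝ) + 1) ^ s - (n : ℝ) ^ s := by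
  have hm : (0 : ℝ) < (n : ℝ) + 1 := by positivity
  set x : ℝ := (n : ℝ) / ((n : ℝ) + 1) with hx
  have hx0 : 0 ≤ x := by positivity
  have hx1 : x ≤ 1 := by rw [hx, div_le_one hm]; linarith
  have e1 : (n : ℝ) ^ s = ((n : ℝ) + 1) ^ s * x ^ s := by
    rw [← Real.mul_rpow hm.le hx0, hx]
    congr 1
    field_simp
  have e2 : ((n : ℝ) + 1) ^ (s - 1) = ((n : ℝ) + 1) ^ s * (1 - x) := by
    rw [Real.rpow_sub hm, Real.rpow_one, hx]
    field_simp
    ring
  have h1 : x ^ s ≤ 1 - min 1 s * (1 - x) := by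
    rcases le_total 1 s with h | h
    · rw [min_eq_left h]
      have := Real.rpow_le_rpow_of_exponent_ge' hx0 hx1 zero_le_one h
      rw [Real.rpow_one] at this
      linarith
    · rw [min_eq_right h]
      have := _root_.rpow_one_add_le_one_add_mul_self (s := x - 1) (by linarith) hs.le h
      have e : 1 + (x - 1) = x := by ring
      rw [e] at this
      linarith
  rw [e1, e2]
  have h2 : 0 ≤ ((n : ℝ) + 1) ^ s := by positivity
  nlinarith

/-- the weight `m ^ (s - 3)`, zero at zero -/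
noncomputable def ph3 (s : ℝ) (m : ℕ) : ℝ := if m = 0 then 0 else (m : ℝ) ^ (s - 3)

lemma ph3_nonneg (s : ℝ) (m : ℕ) : 0 ≤ ph3 s m := by
  unfold ph3
  split_ifs
  · exact le_rfl
  · positivity

lemma low_sum {s : ℝ} (hs : 0 < s) (n : ℕ) :
    ∑ k ∈ box3 n, ph3 s (N k) ≤ 26 / min 1 s * (n : ℝ) ^ s := by
  have hc : 0 < min 1 s := lt_min one_pos hs
  induction n with
  | zero =>
    have h1 : ∀ k ∈ box3 0, ph3 s (N k) = 0 := by
      intro k hk
      rw [mem_box3] at hk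
      unfold ph3
      rw [if_pos (by omega)]
    rw [Finset.sum_eq_zero h1]
    positivity
  | succ n ih =>
    have hsub : box3 n ⊆ box3 (n + 1) := by
      intro k hk
      rw [mem_box3] at hk ⊢
      omega
    rw [← Finset.sum_sdiff hsub]
    have h1 : ∀ k ∈ box3 (n + 1) \ box3 n, ph3 s (N k) = ((n : ℝ) + 1) ^ (s - 3) := by
      intro k hk
      rw [Finset.mem_sdiff, mem_box3, mem_box3] at hk
      have : N k = n + 1 := by omega
      unfold ph3
      rw [this, if_neg (by omega)]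
      push_cast
      rfl
    rw [Finset.sum_congr rfl h1, Finset.sum_const, Finset.card_sdiff_of_subset hsub, card_box3,
      card_box3]
    have hcard : (2 * (n + 1) + 1) ^ 3 - (2 * n + 1) ^ 3 ≤ 26 * (n + 1) ^ 2 := by
      have : (2 * (n + 1) + 1) ^ 3 ≤ 26 * (n + 1) ^ 2 + (2 * n + 1) ^ 3 := by ring_nf; nlinarith
      omega
    have hm : (0 : ℝ) < (n : ℝ) + 1 := by positivity
    have hcard' : (((2 * (n + 1) + 1) ^ 3 - (2 * n + 1) ^ 3 : ℕ) : ℝ) ≤ 26 * ((n : ℝ) + 1) ^ 2 := by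
      exact_mod_cast hcard
    have h2 : (((2 * (n + 1) + 1) ^ 3 - (2 * n + 1) ^ 3 : ℕ)) • (((n : ℝ) + 1) ^ (s - 3)) ≤
        26 * ((n : ℝ) + 1) ^ (s - 1) := by
      rw [nsmul_eq_mul]
      calc _ ≤ (26 * ((n : ℝ) + 1) ^ 2) * ((n : ℝ) + 1) ^ (s - 3) := by gcongr
        _ = 26 * (((n : ℝ) + 1) ^ (2 : ℝ) * ((n : ℝ) + 1) ^ (s - 3)) := by
          rw [mul_assoc]; norm_cast
        _ = _ := by
          rw [← Real.rpow_add hm]
          congr 2
          ring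
    have h3 := bern hs n
    have h4 : 26 * ((n : ℝ) + 1) ^ (s - 1) ≤
        26 / min 1 s * (((n : ℝ) + 1) ^ s - (n : ℝ) ^ s) := by
      rw [div_mul_eq_mul_div, le_div_iff₀ hc]
      nlinarith
    push_cast at h2 ⊢
    linarith

/-- the squared homogeneous Sobolev norm of order `σ` -/
noncomputable def Msq (σ : ℝ) (a : K3 → ℂ) : ℝ := ∑' k, (N k : ℝ) ^ (2 * σ) * ‖a k‖ ^ 2

lemma rpow_N_le {t : ℝ} (h0 : 0 ≤ t) (h1 : t ≤ 3) (k : K3) : (N k : ℝ) ^ t ≤ 1 + (N k : ℝ) ^ 3 := by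
  rcases Nat.eq_zero_or_pos (N k) with h | h
  · rw [h]
    rcases eq_or_lt_of_le h0 with h2 | h2
    · rw [← h2]; norm_num
    · rw [Nat.cast_zero, Real.zero_rpow h2.ne']; norm_num
  · have h2 : (1 : ℝ) ≤ N k := by exact_mod_cast h
    have h3 : (N k : ℝ) ^ t ≤ (N k : ℝ) ^ (3 : ℝ) := Real.rpow_le_rpow_of_exponent_le h2 h1
    have h4 : (N k : ℝ) ^ (3 : ℝ) = (N k : ℝ) ^ (3 : ℕ) := by
      rw [← Real.rpow_natCast]; norm_num
    rw [h4] at h3
    linarith

lemma summ_Msq {σ : ℝ} (h0 : 0 ≤ σ) (h1 : σ ≤ 3 / 2) {a : K3 → ℂ} (ha : Rap a) :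
    Summable fun k => (N k : ℝ) ^ (2 * σ) * ‖a k‖ ^ 2 := by
  have hM : ∀ k, ‖a k‖ ≤ ∑' m, ‖a m‖ := fun k => ha.summable.norm.le_tsum k
    fun _ _ => norm_nonneg _
  have h2 : Summable fun k => (∑' m, ‖a m‖) * (‖a k‖ + (N k : ℝ) ^ 3 * ‖a k‖) := by
    have h3 := (ha 0)
    simp only [pow_zero, one_mul] at h3
    exact (h3.add (ha 3)).mul_left _
  refine Summable.of_nonneg_of_le (fun k => by positivity) (fun k => ?_) h2
  have h3 := rpow_N_le (t := 2 * σ) (by linarith) (by linarith) k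
  calc (N k : ℝ) ^ (2 * σ) * ‖a k‖ ^ 2 ≤ (1 + (N k : ℝ) ^ 3) * (‖a k‖ * ‖a k‖) := by
        rw [sq]; gcongr
    _ ≤ (1 + (N k : ℝ) ^ 3) * ((∑' m, ‖a m‖) * ‖a k‖) := by
        gcongr
        exact hM k
    _ = _ := by ring

/-- the sup of the low part -/
lemma low_sup {σ : ℝ} (h0 : 0 < σ) (h1 : σ < 3 / 2) {a : K3 → ℂ} (ha : Rap a) (ha0 : a 0 = 0)
    {A : ℝ} (hA : 0 < A) (x : V) :
    ‖S ({k : K3 | (N k : ℝ) < A}.indicator a) x‖ ≤
      Real.sqrt (26 / min 1 (3 - 2 * σ) * A ^ (3 - 2 * σ)) * Real.sqrt (Msq σ a) := by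
  classical
  set R : Set K3 := {k : K3 | (N k : ℝ) < A} with hR
  set s : ℝ := 3 - 2 * σ with hs
  have hs0 : 0 < s := by rw [hs]; linarith
  set n : ℕ := ⌈A⌉₊ - 1 with hn
  have hc1 : 1 ≤ ⌈A⌉₊ := Nat.one_le_ceil_iff.mpr hA
  have hmem : ∀ k, k ∈ R ↔ k ∈ box3 n := by
    intro k
    rw [mem_box3]
    show (N k : ℝ) < A ↔ _
    rw [← Nat.lt_ceil]
    omega
  have hnA : (n : ℝ) ≤ A := by
    have : n < ⌈A⌉₊ := by omega
    exact (Nat.lt_ceil.mp this).le
  have hRap : Rap (R.indicator a) := ha.ind R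
  refine (norm_S_le hRap.summable x).trans ?_
  have e1 : ∑' k, ‖R.indicator a k‖ = ∑ k ∈ box3 n, ‖a k‖ := by
    rw [tsum_eq_sum (s := box3 n)]
    · refine Finset.sum_congr rfl fun k hk => ?_
      rw [indicator_of_mem ((hmem k).mpr hk)]
    · intro k hk
      rw [indicator_of_notMem (fun h => hk ((hmem k).mp h)), norm_zero]
  rw [e1]
  have e2 : ∀ k ∈ box3 n, ‖a k‖ =
      Real.sqrt (ph3 s (N k)) * ((N k : ℝ) ^ σ * ‖a k‖) := by
    intro k _
    by_cases hk : k = 0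
    · rw [hk, ha0, norm_zero, mul_zero, mul_zero]
    · have hN : N k ≠ 0 := fun h => hk (N_eq_zero.mp h)
      have hN0 : (0 : ℝ) < N k := by positivity
      unfold ph3
      rw [if_neg hN, Real.sqrt_eq_rpow, ← Real.rpow_mul hN0.le, ← mul_assoc,
        ← Real.rpow_add hN0]
      have : (s - 3) * (1 / 2) + σ = 0 := by rw [hs]; ring
      rw [this, Real.rpow_zero, one_mul]
  rw [Finset.sum_congr rfl e2]
  refine (Real.sum_mul_le_sqrt_mul_sqrt _ _ _).trans ?_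
  have h3 : ∑ k ∈ box3 n, Real.sqrt (ph3 s (N k)) ^ 2 ≤ 26 / min 1 s * A ^ s := by
    have : ∀ k ∈ box3 n, Real.sqrt (ph3 s (N k)) ^ 2 = ph3 s (N k) := fun k _ =>
      Real.sq_sqrt (ph3_nonneg s _)
    rw [Finset.sum_congr rfl this]
    refine (low_sum hs0 n).trans ?_
    have : 0 < min 1 s := lt_min one_pos hs0
    gcongr
  have h4 : ∑ k ∈ box3 n, ((N k : ℝ) ^ σ * ‖a k‖) ^ 2 ≤ Msq σ a := by
    have : ∀ k ∈ box3 n, ((N k : ℝ) ^ σ * ‖a k‖) ^ 2 = (N k : ℝ) ^ (2 * σ) * ‖a k‖ ^ 2 := by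
      intro k _
      rw [mul_pow, ← Real.rpow_natCast ((N k : ℝ) ^ σ) 2, ← Real.rpow_mul (by positivity)]
      congr 2
      push_cast
      ring
    rw [Finset.sum_congr rfl this]
    exact (summ_Msq h0.le h1.le ha).sum_le_tsum _ (fun k _ => by positivity)
  gcongr

lemma S_split {a : K3 → ℂ} (ha : Rap a) (R : Set K3) (x : V) :
    S a x = S (R.indicator a) x + S (Rᶜ.indicator a) x := by
  unfold S
  rw [← (summable_term (ha.ind R).summable x).tsum_add (summable_term (ha.ind Rᶜ).summable x)]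
  refine tsum_congr fun k => ?_
  rw [← add_mul]
  congr 1
  by_cases h : k ∈ R
  · rw [indicator_of_mem h, indicator_of_notMem (not_not.mpr h : k ∉ Rᶜ), add_zero]
  · rw [indicator_of_notMem h, indicator_of_mem (show k ∈ Rᶜ from h), zero_add]

/-- `L²` bound of the set where a Fourier series is large -/
lemma cheb {a : K3 → ℂ} (ha : Rap a) {t : ℝ} (ht : 0 < t) :
    (volume.restrict cube) {x | t < ‖S a x‖} ≤
      ENNReal.ofReal (t ^ (-2 : ℝ) * ∑' k, ‖a k‖ ^ 2) := by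
  have h1 : ENNReal.ofReal (t ^ 2) * (volume.restrict cube) {x | t < ‖S a x‖} ≤
      ENNReal.ofReal (∑' k, ‖a k‖ ^ 2) := by
    have h2 := mul_meas_ge_le_lintegral₀ (μ := volume.restrict cube)
      (f := fun x => ENNReal.ofReal (‖S a x‖ ^ 2))
      ((((S_continuous ha.summable).norm.pow 2).measurable).ennreal_ofReal.aemeasurable)
      (ENNReal.ofReal (t ^ 2))
    have h3 : ∫⁻ x in cube, ENNReal.ofReal (‖S a x‖ ^ 2) = ENNReal.ofReal (∑' k, ‖a k‖ ^ 2) := by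
      have hc : Continuous fun x => ‖S a x‖ ^ 2 := (S_continuous ha.summable).norm.pow 2
      rw [← ofReal_integral_eq_lintegral_ofReal (f := fun x => ‖S a x‖ ^ 2)
        (integrableOn_cube hc)
        (ae_of_all _ fun x => sq_nonneg _), integral_norm_sq ha.summable, n2_sq]
    rw [h3] at h2
    refine le_trans (mul_le_mul' le_rfl (measure_mono ?_)) h2
    intro x hx
    have hx' : t < ‖S a x‖ := hx
    show ENNReal.ofReal (t ^ 2) ≤ ENNReal.ofReal (‖S a x‖ ^ 2)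
    apply ENNReal.ofReal_le_ofReal
    gcongr
  have ht2 : 0 < t ^ 2 := by positivity
  have h4 : (volume.restrict cube) {x | t < ‖S a x‖} ≤
      ENNReal.ofReal (∑' k, ‖a k‖ ^ 2) / ENNReal.ofReal (t ^ 2) := by
    rw [ENNReal.le_div_iff_mul_le (Or.inl (ENNReal.ofReal_pos.mpr ht2).ne')
      (Or.inl ENNReal.ofReal_ne_top), mul_comm]
    exact h1
  refine h4.trans (le_of_eq ?_)
  rw [← ENNReal.ofReal_div_of_pos ht2]
  congr 1
  rw [Real.rpow_neg ht.le, div_eq_inv_mul]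
  norm_cast

end Pool.Agent.X97.NSH
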