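import Pool.Agent.X97.NSH.Evo

/-!
The evolution of the `H^(1/2)` norm and the helical parts of the vorticity.
-/

open MeasureTheory Set Filter Topology
open scoped ContDiff ENNReal

namespace Pool.Agent.X97.NSH

open H459R3.NS

/-- The triple product `v · (w₋ × w₊)` of the velocity and of the parts of the vorticity of
negative and positive helicity. -/
noncomputable def trip (v : V → V) (x : V) : ℝ :=
  ∑ i, v x i * (crossProduct (hel (-1) v x) (hel 1 v x)) i

lemma fr_lap {f : V → ℝ} (hf : SP f) (k : K3) : fr (lap f) k = -((wt k ^ 2 : ℝ) : ℂ) * fr f k := by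
  have h1 : fr (lap f) k = ∑ j, D j (D j (fr f)) k := by
    unfold lap
    rw [fr_sum (fun j _ => (hf.pd j).pd j)]
    refine Finset.sum_congr rfl fun j _ => ?_
    rw [fr_pd (hf.pd j), fr_pd hf]
  rw [h1, wt_sq]
  simp only [D]
  push_cast
  rw [neg_mul, Finset.sum_mul, ← Finset.sum_neg_distrib]
  refine Finset.sum_congr rfl fun j _ => ?_
  have : Complex.I * Complex.I = -1 := Complex.I_mul_I
  linear_combination (2 * Real.pi * (k j : ℂ)) ^ 2 * fr f k * this

lemma int_absD_lap {f : V → ℝ} (hf : SP f) : ∫ x in cube, absD f x * lap f x = -Yc f := by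
  have h := pair_absD hf hf.lap.cont
  rw [← h.tsum_eq]
  unfold Yc
  rw [← tsum_neg]
  refine tsum_congr fun k => ?_
  rw [fr_lap hf, map_mul, map_neg, Complex.conj_ofReal]
  have e : fr f k * (-((wt k ^ 2 : ℝ) : ℂ) * (starRingEnd ℂ) (fr f k)) =
      ((-(wt k ^ 2 * ‖fr f k‖ ^ 2) : ℝ) : ℂ) := by
    push_cast
    rw [← Complex.mul_conj']
    ring
  rw [e, Complex.ofReal_re]
  ring

lemma int_absD_press {v : Fin 3 → V → ℝ} (hv : ∀ i, SP (v i))
    (hdiv : ∀ x, ∑ i, pd i (v i) x = 0) {q : V → ℝ} (hq : SP q) :
    ∑ i, ∫ x in cube, absD (v i) x * pd i q x = 0 := by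
  have h : ∀ i, HasSum (fun k => wt k * (fr (v i) k * (starRingEnd ℂ) (fr (pd i q) k)).re)
      (∫ x in cube, absD (v i) x * pd i q x) := fun i => pair_absD (hv i) (hq.pd i).cont
  have h2 := hasSum_sum (s := Finset.univ) fun i _ => h i
  rw [← h2.tsum_eq]
  have h3 : ∀ k, ∑ i, wt k * (fr (v i) k * (starRingEnd ℂ) (fr (pd i q) k)).re = 0 := by
    intro k
    rw [← Finset.mul_sum, ← Complex.re_sum]
    have e : ∑ i, fr (v i) k * (starRingEnd ℂ) (fr (pd i q) k) = 0 := by
      have e1 : ∀ i, fr (v i) k * (starRingEnd ℂ) (fr (pd i q) k) =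
          (-(2 * Real.pi * Complex.I) * (starRingEnd ℂ) (fr q k)) * ((k i : ℂ) * fr (v i) k) := by
        intro i
        rw [fr_pd hq]
        simp only [D, map_mul, Complex.conj_I, Complex.conj_ofReal, map_ofNat, map_intCast]
        ring
      simp_rw [e1]
      rw [← Finset.mul_sum, fr_div hv hdiv, mul_zero]
    rw [e]
    simp
  rw [tsum_congr h3, tsum_zero]

/-- half of the square of the speed -/
noncomputable def hsp (v : Fin 3 → V → ℝ) (x : V) : ℝ := ∑ j, (1 / 2 : ℝ) * (v j x * v j x)

lemma SP.constmul {f : V → ℝ} (hf : SP f) (c : ℝ) : SP (fun x => c * f x) where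
  smooth := contDiff_const.mul hf.smooth
  per := fun i x => by simp only [hf.per i x]

lemma sp_hsp {v : Fin 3 → V → ℝ} (hv : ∀ i, SP (v i)) : SP (hsp v) :=
  H459R3.NS.SP.sum fun j _ => SP.constmul ((hv j).mul (hv j)) _

lemma pd_hsp {v : Fin 3 → V → ℝ} (hv : ∀ i, SP (v i)) (i : Fin 3) (x : V) :
    pd i (hsp v) x = ∑ j, v j x * pd i (v j) x := by
  have h1 : ∀ j, HasFDerivAt (v j) (fderiv ℝ (v j) x) x := fun j => ((hv j).diff x).hasFDerivAt
  have h2 : HasFDerivAt (hsp v) (∑ j, (1 / 2 : ℝ) • (v j x • fderiv ℝ (v j) x +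
      v j x • fderiv ℝ (v j) x)) x :=
    HasFDerivAt.fun_sum fun j _ => ((h1 j).mul (h1 j)).const_mul _
  unfold pd
  rw [h2.fderiv]
  simp only [sum_apply, smul_apply, add_apply, smul_eq_mul]
  refine Finset.sum_congr rfl fun j _ => ?_
  ring

/-- the pointwise identity behind the criterion -/
lemma conv_ident {v : V → V} (hv : ∀ i, SP (fun y => v y i)) (x : V) :
    ∑ i, absD (fun y => v y i) x * conv (fun i y => v y i) i x =
      ∑ i, absD (fun y => v y i) x * pd i (hsp fun i y => v y i) x - 2 * trip v x := by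
  have e : ∀ i, pd i (hsp fun i y => v y i) x = ∑ j, v x j * pd i (fun y => v y j) x :=
    fun i => pd_hsp (v := fun i y => v y i) hv i x
  simp_rw [e]
  unfold trip conv
  simp only [Fin.sum_univ_three, cross_apply, hel, curl, Matrix.cons_val]
  ring

/-- the square of the `H^(1/2)` norm of a vector field -/
noncomputable def Xv (v : V → V) : ℝ := ∑ i, Xc fun y => v y i

/-- the square of the `H^(3/2)` norm of a vector field -/
noncomputable def Yv (v : V → V) : ℝ := ∑ i, Yc fun y => v y i

variable {ν T : ℝ} {u : ℝ → V → V} {p : ℝ → V → ℝ}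

lemma curl_cont {v : V → V} (hv : ∀ i, SP (fun y => v y i)) (i : Fin 3) :
    Continuous fun x => curl v x i := by
  have h : ∀ j l, Continuous fun x => pd j (fun y => v y l) x := fun j l => ((hv l).pd j).cont
  unfold curl
  fin_cases i
  · exact (h 1 2).sub (h 2 1)
  · exact (h 2 0).sub (h 0 2)
  · exact (h 0 1).sub (h 1 0)

lemma hel_cont {v : V → V} (hv : ∀ i, SP (fun y => v y i)) (s : ℝ) :
    Continuous (hel s v) := by
  refine continuous_pi fun i => ?_
  unfold hel
  exact ((curl_cont hv i).add (continuous_const.mul (absD_cont (hv i)))).div_const 2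

lemma trip_cont {v : V → V} (hv : ∀ i, SP (fun y => v y i)) : Continuous (trip v) := by
  have h1 : ∀ i, Continuous fun x => v x i := fun i => (hv i).cont
  have h2 : ∀ i, Continuous fun x => hel 1 v x i := fun i =>
    (continuous_apply i).comp (hel_cont hv 1)
  have h3 : ∀ i, Continuous fun x => hel (-1) v x i := fun i =>
    (continuous_apply i).comp (hel_cont hv (-1))
  unfold trip
  simp only [Fin.sum_univ_three, cross_apply, Matrix.cons_val]
  have a := h1 0
  have b := h1 1
  have c := h1 2
  have d := h2 0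
  have e := h2 1
  have f := h2 2
  have g := h3 0
  have h := h3 1
  have i := h3 2
  fun_prop

/-- **The evolution of the `H^(1/2)` norm.** -/
theorem X_hasDerivAt (h : IsSol ν T u p) {t : ℝ} (ht : t ∈ Ioo 0 T) :
    HasDerivAt (fun s => Xv (u s)) (-(2 * ν * Yv (u t)) + 4 * ∫ x in cube, trip (u t) x) t := by
  have hI : t ∈ Ico 0 T := ⟨ht.1.le, ht.2⟩
  have hsp : ∀ i, SP (fun y => u t y i) := fun i => h.sp hI i
  have hdiv : ∀ x, ∑ i, pd i (fun y => u t y i) x = 0 := h.divfree t hI
  have h1 : ∀ i, HasDerivAt (fun s => Xc fun y => u s y i)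
      (2 * ∫ x in cube, absD (fun y => u t y i) x * dt (fun s y => u s y i) t x) t := fun i =>
    Xc_hasDerivAt (f := fun s y => u s y i) (h.smooth_c i)
      (fun s hs => (h.sp hs i).per) ht
  have h2 : HasDerivAt (fun s => Xv (u s))
      (∑ i, 2 * ∫ x in cube, absD (fun y => u t y i) x * dt (fun s y => u s y i) t x) t :=
    HasDerivAt.fun_sum fun i _ => h1 i
  refine h2.congr_deriv ?_
  have hc : ∀ i, Continuous (absD fun y => u t y i) := fun i => absD_cont (hsp i)
  have e1 : ∀ i, ∫ x in cube, absD (fun y => u t y i) x * dt (fun s y => u s y i) t x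
      = ν * (∫ x in cube, absD (fun y => u t y i) x * lap (fun y => u t y i) x)
        - (∫ x in cube, absD (fun y => u t y i) x * conv (fun i y => u t y i) i x)
        - ∫ x in cube, absD (fun y => u t y i) x * pd i (p t) x := by
    intro i
    have e : ∀ x, absD (fun y => u t y i) x * dt (fun s y => u s y i) t x
        = ν * (absD (fun y => u t y i) x * lap (fun y => u t y i) x)
          - absD (fun y => u t y i) x * conv (fun i y => u t y i) i x
          - absD (fun y => u t y i) x * pd i (p t) x := by
      intro x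
      rw [h.dt_eq ht]
      ring
    simp_rw [e]
    have i1 : IntegrableOn (fun x => ν * (absD (fun y => u t y i) x * lap (fun y => u t y i) x))
        cube := integrableOn_cube (continuous_const.mul ((hc i).mul (hsp i).lap.cont))
    have i2 : IntegrableOn (fun x => absD (fun y => u t y i) x * conv (fun i y => u t y i) i x)
        cube := integrableOn_cube
          ((hc i).mul (sp_conv (v := fun i y => u t y i) hsp i).cont)
    have i3 : IntegrableOn (fun x => absD (fun y => u t y i) x * pd i (p t) x) cube :=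
      integrableOn_cube ((hc i).mul ((h.sp_p hI).pd i).cont)
    have i12 : IntegrableOn (fun x => ν * (absD (fun y => u t y i) x * lap (fun y => u t y i) x)
        - absD (fun y => u t y i) x * conv (fun i y => u t y i) i x) cube := i1.sub i2
    rw [integral_sub i12 i3, integral_sub i1 i2, integral_const_mul]
  have hsum : ∑ i, ∫ x in cube, absD (fun y => u t y i) x * conv (fun i y => u t y i) i x =
      -(2 * ∫ x in cube, trip (u t) x) := by
    have i2 : ∀ i ∈ Finset.univ, IntegrableOn (fun x => absD (fun y => u t y i) x *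
        conv (fun i y => u t y i) i x) cube := fun i _ => integrableOn_cube
          ((hc i).mul (sp_conv (v := fun i y => u t y i) hsp i).cont)
    rw [← integral_finsetSum _ i2]
    have e2 : ∀ x, ∑ i, absD (fun y => u t y i) x * conv (fun i y => u t y i) i x =
      ∑ i, absD (fun y => u t y i) x * pd i (NSH.hsp fun i y => u t y i) x - 2 * trip (u t) x :=
      fun x => conv_ident hsp x
    simp_rw [e2]
    have i3 : ∀ i ∈ Finset.univ, IntegrableOn (fun x => absD (fun y => u t y i) x *
        pd i (NSH.hsp fun i y => u t y i) x) cube := fun i _ => integrableOn_cube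
          ((hc i).mul ((sp_hsp (v := fun i y => u t y i) hsp).pd i).cont)
    have i4 : IntegrableOn (fun x => ∑ i, absD (fun y => u t y i) x *
        pd i (NSH.hsp fun i y => u t y i) x) cube := integrable_finsetSum _ i3
    have i5 : IntegrableOn (fun x => 2 * trip (u t) x) cube :=
      integrableOn_cube (continuous_const.mul (trip_cont hsp))
    rw [integral_sub i4 i5, integral_finsetSum _ i3, integral_const_mul,
      int_absD_press (v := fun i y => u t y i) hsp hdiv
        (sp_hsp (v := fun i y => u t y i) hsp), zero_sub]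
  simp_rw [e1]
  rw [← Finset.mul_sum, Finset.sum_sub_distrib, Finset.sum_sub_distrib, hsum,
    int_absD_press (v := fun i y => u t y i) hsp hdiv (h.sp_p hI), ← Finset.mul_sum]
  have e3 : ∑ i, ∫ x in cube, absD (fun y => u t y i) x * lap (fun y => u t y i) x =
      -Yv (u t) := by
    unfold Yv
    rw [← Finset.sum_neg_distrib]
    exact Finset.sum_congr rfl fun i _ => int_absD_lap (hsp i)
  rw [e3]
  ring

end Pool.Agent.X97.NSH
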