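import Pool.Agent.X97.NSH.Ident

/-!
Interpolation between the `H^(1/2)` and the `H^(3/2)` norm.
-/

open MeasureTheory Set Filter Topology
open scoped ContDiff ENNReal

namespace Pool.Agent.X97.NSH

open H459R3.NS

/-- the square of the homogeneous Sobolev norm of order `t / 2` -/
noncomputable def hs (t : ℝ) (f : V → ℝ) : ℝ := ∑' k, wt k ^ t * ‖fr f k‖ ^ 2

lemma wt_pos {k : K3} (hk : k ≠ 0) : 0 < wt k := by
  have h1 := N_le_wt k
  have h2 : N k ≠ 0 := fun h => hk (N_eq_zero.mp h)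
  have h3 : (0 : ℝ) < N k := by positivity
  linarith

lemma wt_one_le {k : K3} (hk : k ≠ 0) : 1 ≤ wt k := by
  have h1 := N_le_wt k
  have h2 : N k ≠ 0 := fun h => hk (N_eq_zero.mp h)
  have h3 : (1 : ℝ) ≤ N k := by exact_mod_cast Nat.one_le_iff_ne_zero.mpr h2
  linarith

lemma summ_wt {f : V → ℝ} (hf : SP f) (m : ℕ) : Summable fun k => wt k ^ m * ‖fr f k‖ ^ 2 := by
  have hM : ∀ k, ‖fr f k‖ ≤ ∑' m, ‖fr f m‖ := fun k => (rap_fr hf).summable.norm.le_tsum k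
    fun _ _ => norm_nonneg _
  refine Summable.of_nonneg_of_le (fun k => mul_nonneg (pow_nonneg (wt_nonneg k) _) (sq_nonneg _))
    (fun k => ?_) (((rap_fr hf) m).mul_left (13 ^ m * ∑' m, ‖fr f m‖))
  have h1 := wt_le_N k
  have h2 := wt_nonneg k
  calc wt k ^ m * ‖fr f k‖ ^ 2 ≤ (13 * N k) ^ m * (‖fr f k‖ * ‖fr f k‖) := by
        rw [sq]; gcongr
    _ ≤ (13 * N k) ^ m * ((∑' m, ‖fr f m‖) * ‖fr f k‖) := by
        gcongr
        exact hM k
    _ = _ := by rw [mul_pow]; ring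

lemma summ_hs {f : V → ℝ} (hf : SP f) {t : ℝ} (h1 : 1 ≤ t) (h3 : t ≤ 3) :
    Summable fun k => wt k ^ t * ‖fr f k‖ ^ 2 := by
  refine Summable.of_nonneg_of_le (fun k => mul_nonneg (Real.rpow_nonneg (wt_nonneg k) _)
    (sq_nonneg _)) (fun k => ?_) (summ_wt hf 3)
  by_cases hk : k = 0
  · rw [hk, wt_zero, Real.zero_rpow (by linarith)]
    simp
  · have h4 := wt_one_le hk
    have h5 : wt k ^ t ≤ wt k ^ (3 : ℝ) := Real.rpow_le_rpow_of_exponent_le h4 h3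
    have h6 : wt k ^ (3 : ℝ) = wt k ^ (3 : ℕ) := by rw [← Real.rpow_natCast]; norm_num
    rw [h6] at h5
    gcongr

lemma hs_nonneg (t : ℝ) (f : V → ℝ) : 0 ≤ hs t f :=
  tsum_nonneg fun k => mul_nonneg (Real.rpow_nonneg (wt_nonneg k) _) (sq_nonneg _)

lemma hs_one (f : V → ℝ) : hs 1 f = Xc f := by
  unfold hs Xc
  exact tsum_congr fun k => by rw [Real.rpow_one]

lemma hs_three (f : V → ℝ) : hs 3 f = Yc f := by
  unfold hs Yc
  refine tsum_congr fun k => ?_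
  rw [← Real.rpow_natCast]
  norm_num

lemma Xc_nonneg (f : V → ℝ) : 0 ≤ Xc f := hs_one f ▸ hs_nonneg 1 f

lemma Yc_nonneg (f : V → ℝ) : 0 ≤ Yc f := hs_three f ▸ hs_nonneg 3 f

/-- **Interpolation.** -/
lemma hs_interp {f : V → ℝ} (hf : SP f) {t : ℝ} (h1 : 1 ≤ t) (h3 : t ≤ 3) :
    hs t f ≤ Xc f ^ ((3 - t) / 2) * Yc f ^ ((t - 1) / 2) := by
  rcases eq_or_lt_of_le h1 with h | h
  · rw [← h, hs_one]
    norm_num
  rcases eq_or_lt_of_le h3 with h' | h'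
  · rw [h', hs_three]
    norm_num
  set θ : ℝ := (3 - t) / 2 with hθ
  have hθ0 : 0 < θ := by rw [hθ]; linarith
  have hθ1 : θ < 1 := by rw [hθ]; linarith
  have e1 : (t - 1) / 2 = 1 - θ := by rw [hθ]; ring
  have hpq : (1 / θ).HolderConjugate (1 / (1 - θ)) := by
    refine ⟨?_, by positivity, by
      have : 0 < 1 - θ := by linarith
      positivity⟩
    have : 1 - θ ≠ 0 := by linarith
    field_simp
    ring
  have a0 : ∀ k, 0 ≤ wt k * ‖fr f k‖ ^ 2 := fun k => mul_nonneg (wt_nonneg k) (sq_nonneg _)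
  have b0 : ∀ k, 0 ≤ wt k ^ 3 * ‖fr f k‖ ^ 2 := fun k =>
    mul_nonneg (pow_nonneg (wt_nonneg k) _) (sq_nonneg _)
  have ea : ∀ k, ((wt k * ‖fr f k‖ ^ 2) ^ θ) ^ (1 / θ) = wt k * ‖fr f k‖ ^ 2 := by
    intro k
    rw [← Real.rpow_mul (a0 k), mul_one_div_cancel hθ0.ne', Real.rpow_one]
  have eb : ∀ k, ((wt k ^ 3 * ‖fr f k‖ ^ 2) ^ (1 - θ)) ^ (1 / (1 - θ)) =
      wt k ^ 3 * ‖fr f k‖ ^ 2 := by
    intro k
    rw [← Real.rpow_mul (b0 k), mul_one_div_cancel (by linarith), Real.rpow_one]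
  have key := Real.inner_le_Lp_mul_Lq_tsum_of_nonneg hpq
    (f := fun k => (wt k * ‖fr f k‖ ^ 2) ^ θ) (g := fun k => (wt k ^ 3 * ‖fr f k‖ ^ 2) ^ (1 - θ))
    (fun k => Real.rpow_nonneg (a0 k) _) (fun k => Real.rpow_nonneg (b0 k) _)
    (by
      simp_rw [ea]
      have := summ_wt hf 1
      simpa using this)
    (by
      simp_rw [eb]
      exact summ_wt hf 3)
  simp_rw [ea, eb] at key
  have h5 := key
  rw [one_div_one_div, one_div_one_div] at h5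
  rw [e1]
  refine le_trans (le_of_eq ?_) h5
  unfold hs
  refine tsum_congr fun k => ?_
  have hw := wt_nonneg k
  have hn : 0 ≤ ‖fr f k‖ ^ 2 := sq_nonneg _
  rw [Real.mul_rpow hw hn, Real.mul_rpow (pow_nonneg hw 3) hn]
  have e2 : (wt k ^ 3 : ℝ) ^ (1 - θ) = wt k ^ (3 * (1 - θ)) := by
    rw [← Real.rpow_natCast, ← Real.rpow_mul hw]
    norm_num
  have e3 : (‖fr f k‖ ^ 2) ^ θ * (‖fr f k‖ ^ 2) ^ (1 - θ) = ‖fr f k‖ ^ 2 := by
    rcases eq_or_lt_of_le hn with h6 | h6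
    · rw [← h6, Real.zero_rpow hθ0.ne', zero_mul]
    · rw [← Real.rpow_add h6]
      norm_num
  have e4 : wt k ^ θ * wt k ^ (3 * (1 - θ)) = wt k ^ t := by
    rcases eq_or_lt_of_le hw with h6 | h6
    · rw [← h6, Real.zero_rpow hθ0.ne', zero_mul, Real.zero_rpow (by linarith)]
    · rw [← Real.rpow_add h6]
      congr 1
      rw [hθ]; ring
  rw [e2]
  calc wt k ^ t * ‖fr f k‖ ^ 2 = (wt k ^ θ * wt k ^ (3 * (1 - θ))) *
      ((‖fr f k‖ ^ 2) ^ θ * (‖fr f k‖ ^ 2) ^ (1 - θ)) := by rw [e4, e3]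
    _ = _ := by ring

lemma Xv_nonneg (v : V → V) : 0 ≤ Xv v := Finset.sum_nonneg fun _ _ => Xc_nonneg _

lemma Yv_nonneg (v : V → V) : 0 ≤ Yv v := Finset.sum_nonneg fun _ _ => Yc_nonneg _

lemma hs_le_v {v : V → V} (hv : ∀ i, SP (fun y => v y i)) {t : ℝ} (h1 : 1 ≤ t) (h3 : t ≤ 3)
    (i : Fin 3) : hs t (fun y => v y i) ≤ Xv v ^ ((3 - t) / 2) * Yv v ^ ((t - 1) / 2) := by
  refine (hs_interp (hv i) h1 h3).trans ?_
  have hX : Xc (fun y => v y i) ≤ Xv v := Finset.single_le_sum (f := fun i => Xc fun y => v y i)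
    (fun _ _ => Xc_nonneg _) (Finset.mem_univ i)
  have hY : Yc (fun y => v y i) ≤ Yv v := Finset.single_le_sum (f := fun i => Yc fun y => v y i)
    (fun _ _ => Yc_nonneg _) (Finset.mem_univ i)
  have e1 := Real.rpow_le_rpow (Xc_nonneg _) hX (show 0 ≤ (3 - t) / 2 by linarith)
  have e2 := Real.rpow_le_rpow (Yc_nonneg _) hY (show 0 ≤ (t - 1) / 2 by linarith)
  exact mul_le_mul e1 e2 (Real.rpow_nonneg (Yc_nonneg _) _) (Real.rpow_nonneg (Xv_nonneg _) _)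

/-- the enstrophy is the square of the norm of order one -/
lemma grad_eq {f : V → ℝ} (hf : SP f) : ∑ j, ∫ x in cube, pd j f x ^ 2 = hs 2 f := by
  have e : ∀ j, ∫ x in cube, pd j f x ^ 2 = ∑' k, ‖D j (fr f) k‖ ^ 2 := by
    intro j
    rw [← n2_fr (hf.pd j), fr_pd hf, n2_sq]
  simp_rw [e]
  have hr := rap_fr hf
  rw [← Summable.tsum_finsetSum fun j _ => summable_sq (hr.D j).summable]
  unfold hs
  refine tsum_congr fun k => ?_
  have e2 : wt k ^ (2 : ℝ) = wt k ^ 2 := by rw [← Real.rpow_natCast]; norm_num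
  rw [e2, wt_sq, Finset.sum_mul]
  refine Finset.sum_congr rfl fun j _ => ?_
  rw [D, norm_mul, norm_mul, norm_mul, norm_mul, Complex.norm_I, mul_one, Complex.norm_real,
    Real.norm_eq_abs, abs_of_pos Real.pi_pos, Complex.norm_ofNat, Complex.norm_intCast, mul_pow,
    mul_pow, sq_abs, mul_pow]
  ring

end Pool.Agent.X97.NSH
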