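import Pool.Agent.X97.NSH.Trip

/-!
The regularity criterion.
-/

open MeasureTheory Set Filter Topology
open scoped ContDiff ENNReal

namespace Pool.Agent.X97.NSH

open H459R3.NS

lemma young2 {τ ε c : ℝ} (h0 : 0 < τ) (h2 : τ < 2) (hε : 0 < ε) (hc : 0 ≤ c) :
    ∃ D : ℝ, 0 ≤ D ∧ ∀ β X Y : ℝ, 0 ≤ β → 0 ≤ X → 0 ≤ Y →
      c * (β * (X ^ (2 - τ) * Y ^ τ)) ≤ ε * Y ^ 2 + D * (β ^ (2 / (2 - τ)) * X ^ 2) := by
  set K : ℝ := (c / ε ^ (τ / 2)) ^ (2 / (2 - τ)) with hK
  have hετ : 0 < ε ^ (τ / 2) := by positivity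
  have hK0 : 0 ≤ K := by positivity
  refine ⟨K, hK0, fun β X Y hβ hX hY => ?_⟩
  have h2τ : 0 < 2 - τ := by linarith
  have key := Real.geom_mean_le_arith_mean2_weighted (w₁ := τ / 2) (w₂ := (2 - τ) / 2)
    (p₁ := ε * Y ^ 2) (p₂ := K * (β ^ (2 / (2 - τ)) * X ^ 2)) (by positivity) (by positivity)
    (by positivity) (by positivity) (by ring)
  have e1 : (ε * Y ^ 2) ^ (τ / 2) = ε ^ (τ / 2) * Y ^ τ := by
    rw [Real.mul_rpow hε.le (sq_nonneg _), ← Real.rpow_natCast Y 2, ← Real.rpow_mul hY]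
    congr 2
    push_cast
    ring
  have e2 : (K * (β ^ (2 / (2 - τ)) * X ^ 2)) ^ ((2 - τ) / 2) =
      (c / ε ^ (τ / 2)) * (β * X ^ (2 - τ)) := by
    rw [Real.mul_rpow hK0 (by positivity), Real.mul_rpow (by positivity) (by positivity), hK,
      ← Real.rpow_mul (by positivity), ← Real.rpow_mul hβ, ← Real.rpow_natCast X 2,
      ← Real.rpow_mul hX]
    have g1 : 2 / (2 - τ) * ((2 - τ) / 2) = 1 := by field_simp
    have g2 : ((2 : ℕ) : ℝ) * ((2 - τ) / 2) = 2 - τ := by push_cast; ring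
    rw [g1, g2, Real.rpow_one, Real.rpow_one]
  rw [e1, e2] at key
  have e3 : ε ^ (τ / 2) * Y ^ τ * (c / ε ^ (τ / 2) * (β * X ^ (2 - τ))) =
      c * (β * (X ^ (2 - τ) * Y ^ τ)) := by
    field_simp
  rw [e3] at key
  refine key.trans ?_
  have b1 : τ / 2 * (ε * Y ^ 2) ≤ 1 * (ε * Y ^ 2) :=
    mul_le_mul_of_nonneg_right (by linarith) (by positivity)
  have b2 : (2 - τ) / 2 * (K * (β ^ (2 / (2 - τ)) * X ^ 2)) ≤
      1 * (K * (β ^ (2 / (2 - τ)) * X ^ 2)) :=
    mul_le_mul_of_nonneg_right (by linarith) (by positivity)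
  linarith

lemma gronw {T ν B t : ℝ} {y Y G y' : ℝ → ℝ} (ht : t ∈ Ico 0 T) (hν : 0 ≤ ν)
    (hy : ContinuousOn y (Ico 0 T)) (hY : ContinuousOn Y (Ico 0 T))
    (hy0 : ∀ s, 0 ≤ y s) (hY0 : ∀ s, 0 ≤ Y s)
    (hG0 : ∀ s ∈ Ioo 0 T, 0 ≤ G s) (hGi : IntegrableOn G (Icc 0 t))
    (hGB : ∫ s in (0 : ℝ)..t, G s ≤ B) (hd : ∀ s ∈ Ioo 0 T, HasDerivAt y (y' s) s)
    (hle : ∀ s ∈ Ioo 0 T, y' s + ν * Y s ≤ G s * y s) :
    y t + ν * ∫ s in (0 : ℝ)..t, Y s ≤ y 0 * Real.exp B := by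
  have hT : 0 < T := ht.1.trans_lt ht.2
  have hYint : ∀ s ∈ Ico 0 T, IntervalIntegrable Y volume 0 s := by
    intro s hs
    refine ContinuousOn.intervalIntegrable_of_Icc hs.1 (hY.mono ?_)
    exact fun r hr => ⟨hr.1, hr.2.trans_lt hs.2⟩
  set z : ℝ → ℝ := fun s => y s + ν * ∫ r in (0 : ℝ)..s, Y r with hz
  have hI0 : ∀ s, 0 ≤ s → 0 ≤ ∫ r in (0 : ℝ)..s, Y r := fun s hs =>
    intervalIntegral.integral_nonneg hs fun r _ => hY0 r
  have hzy : ∀ s, 0 ≤ s → y s ≤ z s := by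
    intro s hs
    have := mul_nonneg hν (hI0 s hs)
    simp only [hz]
    linarith
  have hdz : ∀ s ∈ Ioo 0 T, HasDerivAt z (y' s + ν * Y s) s := by
    intro s hs
    refine (hd s hs).add (HasDerivAt.const_mul ν ?_)
    refine intervalIntegral.integral_hasDerivAt_right (hYint s ⟨hs.1.le, hs.2⟩) ?_
      (hY.continuousAt (Ico_mem_nhds hs.1 hs.2))
    exact (hY.mono Ioo_subset_Ico_self).stronglyMeasurableAtFilter isOpen_Ioo s hs
  have hzc : ContinuousOn z (Icc 0 t) := by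
    refine (hy.mono fun s hs => ⟨hs.1, hs.2.trans_lt ht.2⟩).add (ContinuousOn.mul continuousOn_const ?_)
    have := intervalIntegral.continuousOn_primitive_interval' (hYint t ht) (a := 0)
      (left_mem_uIcc)
    rwa [uIcc_of_le ht.1] at this
  have hlog : ∀ ε : ℝ, 0 < ε → z t + ε ≤ (z 0 + ε) * Real.exp B := by
    intro ε hε
    have hpos : ∀ s, 0 ≤ s → 0 < z s + ε := fun s hs => by linarith [hy0 s, hzy s hs]
    have hc : ContinuousOn (fun s => Real.log (z s + ε)) (Icc 0 t) :=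
      (hzc.add continuousOn_const).log fun s hs => (hpos s hs.1).ne'
    have hd' : ∀ s ∈ Ioo 0 t, HasDerivWithinAt (fun s => Real.log (z s + ε))
        ((y' s + ν * Y s) / (z s + ε)) (Ioi s) s := by
      intro s hs
      exact (((hdz s ⟨hs.1, hs.2.trans ht.2⟩).add_const ε).log
        (hpos s hs.1.le).ne').hasDerivWithinAt
    have hle' : ∀ s ∈ Ioo 0 t, (y' s + ν * Y s) / (z s + ε) ≤ G s := by
      intro s hs
      have hsT : s ∈ Ioo 0 T := ⟨hs.1, hs.2.trans ht.2⟩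
      rw [div_le_iff₀ (hpos s hs.1.le)]
      refine (hle s hsT).trans ?_
      exact mul_le_mul_of_nonneg_left (by linarith [hzy s hs.1.le]) (hG0 s hsT)
    have h1 := intervalIntegral.sub_le_integral_of_hasDeriv_right_of_le ht.1 hc hd' hGi hle'
    have h2 : Real.log (z t + ε) ≤ Real.log (z 0 + ε) + B := by linarith
    calc z t + ε = Real.exp (Real.log (z t + ε)) := (Real.exp_log (hpos t ht.1)).symm
      _ ≤ Real.exp (Real.log (z 0 + ε) + B) := Real.exp_le_exp.2 h2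
      _ = (z 0 + ε) * Real.exp B := by rw [Real.exp_add, Real.exp_log (hpos 0 le_rfl)]
  have hz0 : z 0 = y 0 := by simp [hz]
  have hlim1 : Tendsto (fun ε : ℝ => z t + ε) (𝓝[>] 0) (𝓝 (z t + 0)) :=
    (tendsto_const_nhds.add tendsto_id).mono_left nhdsWithin_le_nhds
  have hlim2 : Tendsto (fun ε : ℝ => (z 0 + ε) * Real.exp B) (𝓝[>] 0)
      (𝓝 ((z 0 + 0) * Real.exp B)) :=
    ((tendsto_const_nhds.add tendsto_id).mul_const _).mono_left nhdsWithin_le_nhds
  have := le_of_tendsto_of_tendsto hlim1 hlim2 (by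
    filter_upwards [self_mem_nhdsWithin] with ε hε
    exact hlog ε hε)
  rw [add_zero, add_zero, hz0] at this
  exact this

variable {ν T : ℝ} {u : ℝ → V → V} {p : ℝ → V → ℝ}

lemma Xv_continuousOn (h : IsSol ν T u p) : ContinuousOn (fun s => Xv (u s)) (Ico 0 T) := by
  unfold Xv
  refine continuousOn_finsetSum _ fun i _ => ?_
  have := wsum_continuousOn (f := fun s y => u s y i) (h.smooth_c i)
    (fun s hs => (h.sp hs i).per) 1
  simpa [Xc] using this

lemma Yv_continuousOn (h : IsSol ν T u p) : ContinuousOn (fun s => Yv (u s)) (Ico 0 T) := by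
  unfold Yv
  refine continuousOn_finsetSum _ fun i _ => ?_
  exact wsum_continuousOn (f := fun s y => u s y i) (h.smooth_c i)
    (fun s hs => (h.sp hs i).per) 3

lemma energy_le (h : IsSol ν T u p) (hν : 0 < ν) {t : ℝ} (ht : t ∈ Ico 0 T) :
    energy (u t) ≤ energy (u 0) := by
  have hanti : AntitoneOn (fun s => energy (u s)) (Icc 0 t) := by
    refine antitoneOn_of_hasDerivWithinAt_nonpos (f' := fun s => -(2 * ν * enstrophy (u s)))
      (convex_Icc 0 t)
      (h.energy_continuousOn.mono fun s hs => ⟨hs.1, hs.2.trans_lt ht.2⟩) ?_ ?_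
    · intro s hs
      rw [interior_Icc] at hs
      exact (h.energy_hasDerivAt ⟨hs.1, hs.2.trans ht.2⟩).hasDerivWithinAt
    · intro s _
      have := enstrophy_nonneg (u s)
      have : 0 ≤ 2 * ν * enstrophy (u s) := by positivity
      linarith
  exact hanti ⟨le_rfl, ht.1⟩ ⟨ht.1, le_rfl⟩ ht.1

lemma int_of_bound {T K : ℝ} {f : ℝ → ℝ} (hT : 0 < T) (hf : ContinuousOn f (Ico 0 T))
    (hf0 : ∀ t, 0 ≤ f t) (hK : ∀ t ∈ Ico 0 T, ∫ s in (0 : ℝ)..t, f s ≤ K) :
    IntegrableOn f (Ioo 0 T) := by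
  set b : ℕ → ℝ := fun n => T - T / ((n : ℝ) + 1) with hb
  have hbI : ∀ n, b n ∈ Ico 0 T := by
    intro n
    have h1 : (0 : ℝ) < (n : ℝ) + 1 := by positivity
    constructor
    · simp only [hb, sub_nonneg]
      rw [div_le_iff₀ h1]
      nlinarith [Nat.cast_nonneg (α := ℝ) n]
    · simp only [hb]
      have : 0 < T / ((n : ℝ) + 1) := by positivity
      linarith
  have hlim : Tendsto b atTop (𝓝 T) := by
    have h1 : Tendsto (fun n : ℕ => T / ((n : ℝ) + 1)) atTop (𝓝 0) :=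
      tendsto_const_nhds.div_atTop (tendsto_atTop_add_const_right _ _ tendsto_natCast_atTop_atTop)
    simpa using tendsto_const_nhds.sub h1
  have key := integrableOn_Ioc_of_intervalIntegral_norm_bounded_right (f := f) (I := K) (a := 0)
    (b := b) (b₀ := T) (l := atTop) (fun n => ?_) hlim (Eventually.of_forall fun n => ?_)
  · rwa [integrableOn_Ioc_iff_integrableOn_Ioo] at key
  · have h2 : ContinuousOn f (Icc 0 (b n)) := hf.mono fun s hs => ⟨hs.1, hs.2.trans_lt (hbI n).2⟩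
    exact h2.integrableOn_Icc.mono_set Ioc_subset_Icc_self
  · have h3 := hK (b n) (hbI n)
    rw [intervalIntegral.integral_of_le (hbI n).1] at h3
    refine le_trans (le_of_eq ?_) h3
    refine integral_congr_ae (ae_of_all _ fun s => ?_)
    show ‖f s‖ = f s
    rw [Real.norm_eq_abs, abs_of_nonneg (hf0 s)]

lemma pd_zero_fun (j : Fin 3) : pd j (fun _ : V => (0 : ℝ)) = fun _ => 0 := by
  funext x
  simp [pd]

/-- from the bound of the `H^(1/2)` norm and of the integral to boundedness -/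
lemma bounded_of (h : IsSol ν T u p) (hν : 0 < ν) {B : ℝ}
    (hB : ∀ t ∈ Ico 0 T, Xv (u t) + ν * ∫ s in (0 : ℝ)..t, Yv (u s) ≤ B) :
    ∃ M, ∀ t ∈ Ico 0 T, ∀ x i, |u t x i| ≤ M := by
  rcases le_or_gt T 0 with hT | hT
  · exact ⟨0, fun t ht => absurd (ht.1.trans_lt ht.2) (not_lt.mpr hT)⟩
  have hI0 : ∀ t ∈ Ico 0 T, 0 ≤ ∫ s in (0 : ℝ)..t, Yv (u s) := fun t ht =>
    intervalIntegral.integral_nonneg ht.1 fun r _ => Yv_nonneg _
  have hXB : ∀ t ∈ Ico 0 T, Xv (u t) ≤ B := by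
    intro t ht
    have := hB t ht
    have h1 := mul_nonneg hν.le (hI0 t ht)
    linarith
  have hB0 : 0 ≤ B := (Xv_nonneg _).trans (hXB 0 ⟨le_rfl, hT⟩)
  obtain ⟨C6, hC60, hC6⟩ := sobolev
  set E : ℝ := energy (u 0) with hE
  have hE0 : 0 ≤ E := energy_nonneg _
  -- the Serrin function
  set β : ℝ → ℝ := fun t => C6 * Real.sqrt (Real.sqrt (B * Yv (u t)) + E) with hβ
  have hβ0 : ∀ t, 0 ≤ β t := fun t => by simp only [hβ]; positivity
  have hYc := Yv_continuousOn h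
  have hYint : IntegrableOn (fun t => Yv (u t)) (Ioo 0 T) := by
    refine int_of_bound hT hYc (fun t => Yv_nonneg _) (K := B / ν) ?_
    intro t ht
    rw [le_div_iff₀ hν]
    have := hB t ht
    linarith [Xv_nonneg (u t)]
  have hβ4 : ∀ t, β t ^ (4 : ℝ) ≤ C6 ^ 4 * (2 * (B * Yv (u t)) + 2 * E ^ 2) := by
    intro t
    have hY0 := Yv_nonneg (u t)
    have hBY : 0 ≤ B * Yv (u t) := mul_nonneg hB0 hY0
    have e1 : β t ^ (4 : ℝ) = C6 ^ 4 * (Real.sqrt (B * Yv (u t)) + E) ^ 2 := by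
      simp only [hβ]
      rw [show (4 : ℝ) = ((4 : ℕ) : ℝ) by norm_num, Real.rpow_natCast, mul_pow]
      congr 1
      rw [show (4 : ℕ) = 2 * 2 by norm_num, pow_mul, Real.sq_sqrt (by positivity)]
    rw [e1]
    have h2 := Real.sq_sqrt hBY
    have h3 : (Real.sqrt (B * Yv (u t)) + E) ^ 2 ≤ 2 * (B * Yv (u t)) + 2 * E ^ 2 := by
      nlinarith [sq_nonneg (Real.sqrt (B * Yv (u t)) - E)]
    gcongr
  have hβi : IntegrableOn (fun t => β t ^ (4 : ℝ)) (Ioo 0 T) := by
    have hbd : IntegrableOn (fun t => C6 ^ 4 * (2 * (B * Yv (u t)) + 2 * E ^ 2)) (Ioo 0 T) := by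
      have hc : IntegrableOn (fun _ : ℝ => 2 * E ^ 2) (Ioo 0 T) := integrableOn_const (by simp)
      exact (((hYint.const_mul B).const_mul 2).add hc).const_mul _
    refine Integrable.mono' hbd ?_ (ae_of_all _ fun t => ?_)
    · have hc : ContinuousOn (fun t => β t ^ (4 : ℝ)) (Ioo 0 T) := by
        have h4 : ContinuousOn (fun t => Yv (u t)) (Ioo 0 T) := hYc.mono Ioo_subset_Ico_self
        refine ContinuousOn.rpow_const ?_ (fun _ _ => Or.inr (by norm_num))
        exact continuousOn_const.mul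
          (((continuousOn_const.mul h4).sqrt.add continuousOn_const).sqrt)
      exact hc.aestronglyMeasurable measurableSet_Ioo
    · rw [Real.norm_eq_abs, abs_of_nonneg (Real.rpow_nonneg (hβ0 t) _)]
      exact hβ4 t
  obtain ⟨C, hC0, hC⟩ := serrin (p := 6) (by norm_num) (q := 4) (by norm_num)
    (ν := ν) (K := 0) (lam := 0) (κ := 0) hν le_rfl le_rfl (by norm_num)
  refine (hC T 0 u p β (fun _ => 0) h le_rfl (fun t _ => ⟨hβ0 t, le_rfl⟩) hβi
    (integrableOn_zero) ?_).2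
  intro t ht
  have hI : t ∈ Ico 0 T := ⟨ht.1.le, ht.2⟩
  refine ⟨fun _ => 0, fun _ => 0, ∅, ⟨contDiff_const, fun _ _ => rfl⟩,
    ⟨contDiff_const, fun _ _ => rfl⟩, ?_, ?_, ?_, ?_, ?_, ?_, ?_⟩
  · intro x r _
    simp
  · intro i k _
    simp [fr, fc]
  · simp [enstrophy, pd_zero_fun]
  · simp [palin, lap, pd_zero_fun]
  · simp [enstrophy, pd_zero_fun]
  · have : stretch (fun _ : V => (0 : V)) = 0 := by simp [stretch, pd_zero_fun]
    show stretch (fun _ : V => (0 : V)) ≤ _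
    rw [this]
    simp
  · intro i
    have e : (fun x => u t x i - (fun _ : V => (0 : V)) x i - (fun _ : V => (0 : V)) x i) =
        fun x => u t x i := by
      funext x
      simp
    have hsp := h.sp hI
    have h5 := hC6 (fun x => u t x i) (hsp i)
    show eLpNorm (fun x => u t x i - (fun _ : V => (0 : V)) x i - (fun _ : V => (0 : V)) x i) 6
      (volume.restrict cube) ≤ ENNReal.ofReal (β t)
    rw [e]
    refine h5.trans (ENNReal.ofReal_le_ofReal ?_)
    simp only [hβ]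
    have h6 : ∑ j, ∫ x in cube, pd j (fun x => u t x i) x ^ 2 ≤ Real.sqrt (B * Yv (u t)) := by
      rw [grad_eq (hsp i)]
      have h7 := hs_le_v hsp (t := 2) (by norm_num) (by norm_num) i
      refine h7.trans ?_
      have e1 : ((3 : ℝ) - 2) / 2 = 1 / 2 := by norm_num
      have e2 : ((2 : ℝ) - 1) / 2 = 1 / 2 := by norm_num
      rw [e1, e2, ← Real.sqrt_eq_rpow, ← Real.sqrt_eq_rpow, ← Real.sqrt_mul (Xv_nonneg _)]
      apply Real.sqrt_le_sqrt
      exact mul_le_mul_of_nonneg_right (hXB t hI) (Yv_nonneg _)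
    have h8 : ∫ x in cube, (fun x => u t x i) x ^ 2 ≤ E := by
      refine le_trans ?_ (energy_le h hν hI)
      exact Finset.single_le_sum (f := fun i => ∫ x in cube, u t x i ^ 2)
        (fun _ _ => integral_nonneg fun _ => sq_nonneg _) (Finset.mem_univ i)
    gcongr

/-- **The criterion.** -/
theorem criterion {q l p r : ℝ} (hq : 3 / 2 < q) (hq6 : q ≤ 6) (hpq : 2 / p + 3 / q = 2)
    (hs : 3 < l) (hrs : 2 / r + 3 / l = 1) {ν : ℝ} (hν : 0 < ν) :
    ∃ C : ℝ, 0 ≤ C ∧ ∀ (T : ℝ) (u : ℝ → V → V) (P : ℝ → V → ℝ) (β γ : ℝ → ℝ), IsSol ν T u P →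
      (∀ t ∈ Ioo 0 T, 0 ≤ β t ∧ 0 ≤ γ t) → IntegrableOn (fun t => β t ^ p) (Ioo 0 T) →
      IntegrableOn (fun t => γ t ^ r) (Ioo 0 T) →
      (∀ t ∈ Ioo 0 T, ∃ g h : V → ℝ, AEStronglyMeasurable g (volume.restrict cube) ∧
        AEStronglyMeasurable h (volume.restrict cube) ∧
        eLpNorm g (ENNReal.ofReal q) (volume.restrict cube) ≤ ENNReal.ofReal (β t) ∧
        eLpNorm h (ENNReal.ofReal l) (volume.restrict cube) ≤ ENNReal.ofReal (γ t) ∧
        Ctrl (u t) g h) →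
      (∀ t ∈ Ico 0 T, Xv (u t) + energy (u 0) + ν * ∫ s in (0 : ℝ)..t, Yv (u s) ≤
        (Xv (u 0) + energy (u 0)) * Real.exp
          (C * ((∫ s in Ioo 0 T, β s ^ p) + (∫ s in Ioo 0 T, γ s ^ r) + T))) ∧
      ∃ M, ∀ t ∈ Ico 0 T, ∀ x i, |u t x i| ≤ M := by
  obtain ⟨C0, hC00, hC0⟩ := prod_le hq hq6 hs
  have hq0 : 0 < q := by linarith
  have hs0 : 0 < l := by linarith
  have hτ0 : 0 < 3 / q := by positivity
  have hτ2 : 3 / q < 2 := by rw [div_lt_iff₀ hq0]; linarith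
  have hσ0 : 0 < 3 / l := by positivity
  have hσ1 : 3 / l < 1 := by rw [div_lt_iff₀ hs0]; linarith
  have hp : p = 2 / (2 - 3 / q) := by
    have h1 : 2 / p = 2 - 3 / q := by linarith
    rw [← h1]
    have : p ≠ 0 := by
      intro h0
      rw [h0, div_zero] at h1
      linarith
    field_simp
  have hr : r = 2 / (2 - (1 + 3 / l)) := by
    have h1 : 2 / r = 2 - (1 + 3 / l) := by linarith
    rw [← h1]
    have : r ≠ 0 := by
      intro h0
      rw [h0, div_zero] at h1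
      linarith
    field_simp
  obtain ⟨D1, hD10, hD1⟩ := young2 (τ := 3 / q) (ε := ν / 2) (c := 4 * C0) hτ0 hτ2
    (by positivity) (by positivity)
  obtain ⟨D2, hD20, hD2⟩ := young2 (τ := 1 + 3 / l) (ε := ν / 2) (c := 4 * C0) (by linarith)
    (by linarith) (by positivity) (by positivity)
  refine ⟨D1 + D2 + ν, by positivity, fun T u P β γ h h0 hβi hγi hctrl => ?_⟩
  set E : ℝ := energy (u 0) with hE
  have hE0 : 0 ≤ E := energy_nonneg _
  set G : ℝ → ℝ := fun t => (D1 * β t ^ p + D2 * γ t ^ r) + ν with hG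
  set I1 := ∫ s in Ioo 0 T, β s ^ p with hI1
  set I2 := ∫ s in Ioo 0 T, γ s ^ r with hI2
  have hI10 : 0 ≤ I1 := setIntegral_nonneg measurableSet_Ioo fun s hs =>
    Real.rpow_nonneg (h0 s hs).1 _
  have hI20 : 0 ≤ I2 := setIntegral_nonneg measurableSet_Ioo fun s hs =>
    Real.rpow_nonneg (h0 s hs).2 _
  have hβ1 : ∀ t ∈ Ico 0 T, IntegrableOn (fun s => β s ^ p) (Icc 0 t) := by
    intro t ht
    rw [integrableOn_Icc_iff_integrableOn_Ioc, integrableOn_Ioc_iff_integrableOn_Ioo]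
    exact hβi.mono_set (Ioo_subset_Ioo_right ht.2.le)
  have hγ1 : ∀ t ∈ Ico 0 T, IntegrableOn (fun s => γ s ^ r) (Icc 0 t) := by
    intro t ht
    rw [integrableOn_Icc_iff_integrableOn_Ioc, integrableOn_Ioc_iff_integrableOn_Ioo]
    exact hγi.mono_set (Ioo_subset_Ioo_right ht.2.le)
  set B : ℝ := (D1 + D2 + ν) * (I1 + I2 + T) with hB
  have hmain : ∀ t ∈ Ico 0 T, Xv (u t) + E + ν * ∫ s in (0 : ℝ)..t, Yv (u s) ≤
      (Xv (u 0) + E) * Real.exp B := by
    intro t ht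
    have hT : 0 < T := ht.1.trans_lt ht.2
    have i1 : IntervalIntegrable (fun s => D1 * β s ^ p) volume 0 t :=
      ((intervalIntegrable_iff_integrableOn_Icc_of_le ht.1).2 (hβ1 t ht)).const_mul _
    have i2 : IntervalIntegrable (fun s => D2 * γ s ^ r) volume 0 t :=
      ((intervalIntegrable_iff_integrableOn_Icc_of_le ht.1).2 (hγ1 t ht)).const_mul _
    have i12 : IntervalIntegrable (fun s => D1 * β s ^ p + D2 * γ s ^ r) volume 0 t := i1.add i2
    refine gronw (T := T) (y := fun s => Xv (u s) + E) (Y := fun s => Yv (u s)) (G := G)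
      (y' := fun s => -(2 * ν * Yv (u s)) + 4 * ∫ x in cube, trip (u s) x) ht hν.le
      ((Xv_continuousOn h).add continuousOn_const) (Yv_continuousOn h)
      (fun s => add_nonneg (Xv_nonneg _) hE0) (fun s => Yv_nonneg _) ?_ ?_ ?_ ?_ ?_
    · intro s hs
      have h1 := Real.rpow_nonneg (h0 s hs).1 p
      have h2 := Real.rpow_nonneg (h0 s hs).2 r
      simp only [hG]
      positivity
    · have hc : IntegrableOn (fun _ : ℝ => ν) (Icc 0 t) := integrableOn_const (by simp)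
      exact (((hβ1 t ht).const_mul D1).add ((hγ1 t ht).const_mul D2)).add hc
    · simp only [hG]
      rw [intervalIntegral.integral_add i12 intervalIntegrable_const,
        intervalIntegral.integral_add i1 i2,
        intervalIntegral.integral_const_mul, intervalIntegral.integral_const_mul,
        intervalIntegral.integral_const]
      have a1 : ∫ s in (0 : ℝ)..t, β s ^ p ≤ I1 := by
        rw [intervalIntegral.integral_of_le ht.1, integral_Ioc_eq_integral_Ioo]
        refine setIntegral_mono_set hβi ?_ (Ioo_subset_Ioo_right ht.2.le).eventuallyLE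
        filter_upwards [ae_restrict_mem measurableSet_Ioo] with s hs
        exact Real.rpow_nonneg (h0 s hs).1 p
      have a2 : ∫ s in (0 : ℝ)..t, γ s ^ r ≤ I2 := by
        rw [intervalIntegral.integral_of_le ht.1, integral_Ioc_eq_integral_Ioo]
        refine setIntegral_mono_set hγi ?_ (Ioo_subset_Ioo_right ht.2.le).eventuallyLE
        filter_upwards [ae_restrict_mem measurableSet_Ioo] with s hs
        exact Real.rpow_nonneg (h0 s hs).2 r
      have a3 : (t - 0) • ν ≤ T * ν := by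
        rw [smul_eq_mul, sub_zero]
        exact mul_le_mul_of_nonneg_right ht.2.le hν.le
      have a4 : D1 * ∫ s in (0 : ℝ)..t, β s ^ p ≤ D1 * I1 := by gcongr
      have a5 : D2 * ∫ s in (0 : ℝ)..t, γ s ^ r ≤ D2 * I2 := by gcongr
      have b1 : 0 ≤ D1 * (I2 + T) := by positivity
      have b2 : 0 ≤ D2 * (I1 + T) := by positivity
      have b3 : 0 ≤ ν * (I1 + I2) := by positivity
      rw [hB]
      nlinarith
    · intro s hs
      exact (X_hasDerivAt h hs).add_const E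
    · intro s hs
      have hI : s ∈ Ico 0 T := ⟨hs.1.le, hs.2⟩
      obtain ⟨g, g', hgm, hgm', hg, hg', hc⟩ := hctrl s hs
      have h1 := hC0 (u s) E (β s) (γ s) g g' (h.sp hI) (energy_le h hν hI) (h0 s hs).1
        (h0 s hs).2 hgm hgm' hg hg' hc
      have hX := RX_nonneg E (u s)
      have hY := RY_nonneg E (u s)
      have h2 := hD1 (β s) (RX E (u s)) (RY E (u s)) (h0 s hs).1 hX hY
      have h3 := hD2 (γ s) (RX E (u s)) (RY E (u s)) (h0 s hs).2 hX hY
      have e1 : RX E (u s) ^ 2 = Xv (u s) + E :=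
        Real.sq_sqrt (add_nonneg (Xv_nonneg _) hE0)
      have e2 : RY E (u s) ^ 2 = Yv (u s) + E :=
        Real.sq_sqrt (add_nonneg (Yv_nonneg _) hE0)
      have e3 : 2 - (1 + 3 / l) = 1 - 3 / l := by ring
      rw [← hp, e1, e2] at h2
      rw [← hr, e3, e1, e2] at h3
      simp only [hG]
      have e4 : 4 * (C0 * (β s * (RX E (u s) ^ (2 - 3 / q) * RY E (u s) ^ (3 / q))) +
          C0 * (γ s * (RX E (u s) ^ (1 - 3 / l) * RY E (u s) ^ (1 + 3 / l)))) =
          4 * C0 * (β s * (RX E (u s) ^ (2 - 3 / q) * RY E (u s) ^ (3 / q))) +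
          4 * C0 * (γ s * (RX E (u s) ^ (1 - 3 / l) * RY E (u s) ^ (1 + 3 / l))) := by ring
      have hXv := Xv_nonneg (u s)
      have h5 : ν * E ≤ ν * (Xv (u s) + E) := by
        apply mul_le_mul_of_nonneg_left _ hν.le
        linarith
      nlinarith
  refine ⟨hmain, bounded_of h hν (B := (Xv (u 0) + E) * Real.exp B) fun t ht => ?_⟩
  have := hmain t ht
  linarith

end Pool.Agent.X97.NSH
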