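import Pool.Agent.X97.NSH.Frac

/-!
The fractional Sobolev inequality for Fourier series on the torus.
-/

open MeasureTheory Set Filter Topology
open scoped ContDiff ENNReal

namespace Pool.Agent.X97.NSH

open H459R3.NS

lemma lint_pow {r t0 c : ℝ} (hr : -1 < r) (ht0 : 0 ≤ t0) (hc : 0 ≤ c) :
    ∫⁻ t in Ioi (0 : ℝ), (Iic t0).indicator (fun t => ENNReal.ofReal (c * t ^ r)) t =
      ENNReal.ofReal (c * (t0 ^ (r + 1) / (r + 1))) := by
  rw [lintegral_indicator measurableSet_Iic, Measure.restrict_restrict measurableSet_Iic,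
    show Iic t0 ∩ Ioi (0 : ℝ) = Ioc 0 t0 from by ext x; simp [and_comm]]
  rw [← ofReal_integral_eq_lintegral_ofReal (f := fun t : ℝ => c * t ^ r)]
  · rw [integral_const_mul, ← intervalIntegral.integral_of_le ht0,
      integral_rpow (Or.inl hr), Real.zero_rpow (by linarith), sub_zero]
  · rw [← IntegrableOn, ← intervalIntegrable_iff_integrableOn_Ioc_of_le ht0]
    exact (intervalIntegral.intervalIntegrable_rpow' hr).const_mul c
  · filter_upwards [ae_restrict_mem measurableSet_Ioc] with t ht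
    have := ht.1
    positivity

/-- **Fractional Sobolev inequality.** -/
theorem sobF {σ : ℝ} (h0 : 0 < σ) (h1 : σ < 3 / 2) : ∃ C : ℝ, 0 ≤ C ∧ ∀ a : K3 → ℂ, Rap a →
    a 0 = 0 → ∫⁻ x in cube, ENNReal.ofReal (‖S a x‖ ^ (6 / (3 - 2 * σ))) ≤
      ENNReal.ofReal (C * Real.sqrt (Msq σ a) ^ (6 / (3 - 2 * σ))) := by
  set s : ℝ := 3 - 2 * σ with hs
  have hs0 : 0 < s := by rw [hs]; linarith
  have hs3 : s < 3 := by rw [hs]; linarith
  set b : ℝ := 6 / s with hb
  have hb2 : 2 < b := by rw [hb, lt_div_iff₀ hs0]; linarith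
  have hbs : s / 2 * (b - 2) = 2 * σ := by
    rw [hb]; field_simp; rw [hs]; ring
  set C1 : ℝ := 26 / min 1 s with hC1
  have hC10 : 0 < C1 := by
    have : 0 < min 1 s := lt_min one_pos hs0
    positivity
  set c1 : ℝ := Real.sqrt C1 with hc1
  have hc10 : 0 < c1 := Real.sqrt_pos.mpr hC10
  refine ⟨b * (4 / (b - 2) * (2 * c1) ^ (b - 2)), ?_, ?_⟩
  · have : 0 < b - 2 := by linarith
    positivity
  intro a ha ha0
  set M : ℝ := Real.sqrt (Msq σ a) with hM
  have hMsq0 : 0 ≤ Msq σ a := tsum_nonneg fun k => by positivity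
  have hM0 : 0 ≤ M := Real.sqrt_nonneg _
  have hM2 : M ^ 2 = Msq σ a := Real.sq_sqrt hMsq0
  have hsum := summ_Msq h0.le h1.le ha
  rcases eq_or_lt_of_le hM0 with hMz | hMpos
  · -- the zero function
    have hz : ∀ k, a k = 0 := by
      intro k
      by_cases hk : k = 0
      · rw [hk, ha0]
      · have h2 : (N k : ℝ) ^ (2 * σ) * ‖a k‖ ^ 2 ≤ Msq σ a :=
          hsum.le_tsum k fun _ _ => by positivity
        rw [← hM2, ← hMz] at h2
        have hN : N k ≠ 0 := fun h => hk (N_eq_zero.mp h)
        have hN0 : (0 : ℝ) < N k := by positivity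
        have h3 : 0 < (N k : ℝ) ^ (2 * σ) := by positivity
        have h4 : ‖a k‖ ^ 2 ≤ 0 := by
          by_contra hcon
          push Not at hcon
          have := mul_pos h3 hcon
          norm_num at h2
          linarith
        have h5 : ‖a k‖ = 0 := by
          have := sq_nonneg ‖a k‖
          exact pow_eq_zero_iff (two_ne_zero) |>.mp (le_antisymm h4 this)
        exact norm_eq_zero.mp h5
    have hS : ∀ x, S a x = 0 := by
      intro x
      unfold S
      simp [hz]
    have hb0 : b ≠ 0 := by linarith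
    have : ∀ x, ENNReal.ofReal (‖S a x‖ ^ b) = 0 := by
      intro x
      rw [hS, norm_zero, Real.zero_rpow hb0, ENNReal.ofReal_zero]
    simp_rw [this]
    simp
  -- the main case
  set κ : ℝ := 2 * c1 * M with hκ
  have hκ0 : 0 < κ := by positivity
  set A : ℝ → ℝ := fun t => (t / κ) ^ (2 / s) with hA
  have hlow : ∀ t : ℝ, 0 < t → ∀ x, ‖S ({k : K3 | (N k : ℝ) < A t}.indicator a) x‖ ≤ t / 2 := by
    intro t ht x
    have hApos : 0 < A t := by simp only [hA]; positivity
    refine (low_sup h0 h1 ha ha0 hApos x).trans (le_of_eq ?_)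
    rw [← hs, ← hC1, ← hM, Real.sqrt_mul hC10.le, ← hc1]
    have e1 : Real.sqrt (A t ^ s) = t / κ := by
      simp only [hA]
      rw [← Real.rpow_mul (by positivity), Real.sqrt_eq_rpow, ← Real.rpow_mul (by positivity)]
      have : 2 / s * s * (1 / 2) = 1 := by field_simp
      rw [this, Real.rpow_one]
    rw [e1, hκ]
    field_simp
  have hmeas : ∀ t : ℝ, 0 < t → (volume.restrict cube) {x | t < ‖S a x‖} ≤
      ENNReal.ofReal ((t / 2) ^ (-2 : ℝ) *
        ∑' k, ‖({k : K3 | (N k : ℝ) < A t}ᶜ).indicator a k‖ ^ 2) := by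
    intro t ht
    refine le_trans (measure_mono ?_) (cheb (ha.ind _) (half_pos ht))
    intro x hx
    have hx' : t < ‖S a x‖ := hx
    show t / 2 < ‖S _ x‖
    rw [S_split ha {k : K3 | (N k : ℝ) < A t} x] at hx'
    have h3 := norm_add_le (S ({k : K3 | (N k : ℝ) < A t}.indicator a) x)
      (S ({k : K3 | (N k : ℝ) < A t}ᶜ.indicator a) x)
    have h4 := hlow t ht x
    linarith
  -- the threshold of a frequency
  set tk : K3 → ℝ := fun k => κ * (N k : ℝ) ^ (s / 2) with htk
  have htk0 : ∀ k, 0 ≤ tk k := fun k => by simp only [htk]; positivity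
  have hth : ∀ t : ℝ, 0 < t → ∀ k, ¬ ((N k : ℝ) < A t) → t ≤ tk k := by
    intro t ht k hk
    push Not at hk
    simp only [hA] at hk
    have h3 : ((t / κ) ^ (2 / s)) ^ (s / 2) ≤ (N k : ℝ) ^ (s / 2) := by gcongr
    rw [← Real.rpow_mul (by positivity)] at h3
    have : 2 / s * (s / 2) = 1 := by field_simp
    rw [this, Real.rpow_one, div_le_iff₀ hκ0] at h3
    simp only [htk]
    linarith
  set G : K3 → ℝ → ℝ≥0∞ := fun k => (Iic (tk k)).indicator
    (fun t => ENNReal.ofReal (4 * ‖a k‖ ^ 2 * t ^ (b - 3))) with hG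
  have hpt : ∀ t : ℝ, 0 < t → (volume.restrict cube) {x | t < ‖S a x‖} *
      ENNReal.ofReal (t ^ (b - 1)) ≤ ∑' k, G k t := by
    intro t ht
    simp only [hG]
    have hsq : Summable fun k => ‖({k : K3 | (N k : ℝ) < A t}ᶜ).indicator a k‖ ^ 2 :=
      summable_sq (ha.ind _).summable
    refine (mul_le_mul' (hmeas t ht) le_rfl).trans ?_
    rw [← ENNReal.ofReal_mul' (by positivity), ← tsum_mul_left, ← tsum_mul_right,
      ENNReal.ofReal_tsum_of_nonneg (fun k => by positivity) ((hsq.mul_left _).mul_right _)]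
    refine ENNReal.tsum_le_tsum fun k => ?_
    by_cases hk : (N k : ℝ) < A t
    · have hk' : k ∉ ({k : K3 | (N k : ℝ) < A t}ᶜ) := not_not.mpr hk
      rw [indicator_of_notMem hk']
      simp
    · have hk' : k ∈ ({k : K3 | (N k : ℝ) < A t}ᶜ) := hk
      rw [indicator_of_mem hk', indicator_of_mem (show t ∈ Iic (tk k) from hth t ht k hk)]
      apply ENNReal.ofReal_le_ofReal
      apply le_of_eq
      have e1 : (t / 2) ^ (-2 : ℝ) = 4 * t ^ (-2 : ℝ) := by
        rw [Real.div_rpow ht.le (by norm_num)]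
        have : (2 : ℝ) ^ (-2 : ℝ) = 1 / 4 := by
          rw [Real.rpow_neg (by norm_num)]
          norm_num
        rw [this]
        ring
      have e2 : t ^ (b - 3) = t ^ (-2 : ℝ) * t ^ (b - 1) := by
        rw [← Real.rpow_add ht]
        congr 1
        ring
      rw [e1, e2]
      ring
  have hlay := lintegral_rpow_eq_lintegral_meas_lt_mul (volume.restrict cube)
    (f := fun x => ‖S a x‖) (ae_of_all _ fun x => norm_nonneg _)
    ((S_continuous ha.summable).norm.measurable.aemeasurable) (p := b) (by linarith)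
  rw [hlay]
  have hle : ∫⁻ t in Ioi (0 : ℝ), (volume.restrict cube) {x | t < ‖S a x‖} *
      ENNReal.ofReal (t ^ (b - 1)) ≤ ENNReal.ofReal (4 / (b - 2) * κ ^ (b - 2) * M ^ 2) := by
    calc _ ≤ ∫⁻ t in Ioi (0 : ℝ), ∑' k, G k t := by
          refine lintegral_mono_ae ?_
          filter_upwards [ae_restrict_mem measurableSet_Ioi] with t ht
          exact hpt t ht
      _ = ∑' k, ∫⁻ t in Ioi (0 : ℝ), G k t := by
          rw [lintegral_tsum]
          intro k
          refine Measurable.aemeasurable ?_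
          exact (Measurable.ennreal_ofReal (by fun_prop)).indicator measurableSet_Iic
      _ = ∑' k, ENNReal.ofReal (4 / (b - 2) * κ ^ (b - 2) * ((N k : ℝ) ^ (2 * σ) * ‖a k‖ ^ 2)) := by
          refine tsum_congr fun k => ?_
          simp only [hG]
          rw [lint_pow (by linarith) (htk0 k) (by positivity)]
          congr 1
          have e1 : b - 3 + 1 = b - 2 := by ring
          rw [e1]
          simp only [htk]
          rw [Real.mul_rpow hκ0.le (by positivity), ← Real.rpow_mul (by positivity), hbs]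
          have : b - 2 ≠ 0 := by linarith
          field_simp
      _ = ENNReal.ofReal (4 / (b - 2) * κ ^ (b - 2) * M ^ 2) := by
          rw [← ENNReal.ofReal_tsum_of_nonneg _ (hsum.mul_left _), tsum_mul_left, hM2]
          · rfl
          · intro k
            have : 0 < b - 2 := by linarith
            positivity
  refine (mul_le_mul' le_rfl hle).trans ?_
  rw [← ENNReal.ofReal_mul (by linarith)]
  apply ENNReal.ofReal_le_ofReal
  apply le_of_eq
  have e1 : κ ^ (b - 2) = (2 * c1) ^ (b - 2) * M ^ (b - 2) := by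
    rw [hκ, Real.mul_rpow (by positivity) hM0]
  have e2 : M ^ b = M ^ (b - 2) * M ^ 2 := by
    rw [← Real.rpow_natCast M 2, ← Real.rpow_add hMpos]
    congr 1
    push_cast
    ring
  rw [e1, e2]
  ring

end Pool.Agent.X97.NSH
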