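import Pool.Agent.X97.NSH.Emb2

/-!
The estimate of the production of the `H^(1/2)` norm.
-/

open MeasureTheory Set Filter Topology
open scoped ContDiff ENNReal

namespace Pool.Agent.X97.NSH

open H459R3.NS

/-- Hölder's inequality for three functions -/
lemma holder3 {α : Type*} [MeasurableSpace α] {μ : Measure α} {f g h : α → ℝ≥0∞}
    (hf : AEMeasurable f μ) (hg : AEMeasurable g μ) (hh : AEMeasurable h μ) {a b c : ℝ}
    (ha : 0 < a) (hb : 0 < b) (hc : 0 < c) (habc : 1 / a + 1 / b + 1 / c = 1) :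
    ∫⁻ x, f x * g x * h x ∂μ ≤
      (∫⁻ x, f x ^ a ∂μ) ^ (1 / a) * (∫⁻ x, g x ^ b ∂μ) ^ (1 / b) *
        (∫⁻ x, h x ^ c ∂μ) ^ (1 / c) := by
  have key := ENNReal.lintegral_prod_norm_pow_le (μ := μ) (Finset.univ : Finset (Fin 3))
    (f := ![fun x => f x ^ a, fun x => g x ^ b, fun x => h x ^ c])
    (p := ![1 / a, 1 / b, 1 / c]) ?_ ?_ ?_
  · simp only [Fin.prod_univ_three, Matrix.cons_val] at key
    refine le_trans (le_of_eq ?_) key
    refine lintegral_congr fun x => ?_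
    rw [← ENNReal.rpow_mul, ← ENNReal.rpow_mul, ← ENNReal.rpow_mul, mul_one_div_cancel ha.ne',
      mul_one_div_cancel hb.ne', mul_one_div_cancel hc.ne', ENNReal.rpow_one, ENNReal.rpow_one,
      ENNReal.rpow_one]
  · intro i _
    fin_cases i
    · exact hf.pow_const a
    · exact hg.pow_const b
    · exact hh.pow_const c
  · simp only [Fin.sum_univ_three, Matrix.cons_val]
    exact habc
  · intro i _
    fin_cases i
    · show 0 ≤ 1 / a
      positivity
    · show 0 ≤ 1 / b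
      positivity
    · show 0 ≤ 1 / c
      positivity

/-- Hölder's inequality in terms of `L^p` norms -/
lemma holder3' {f g h : V → ℝ} (hf : AEStronglyMeasurable f (volume.restrict cube))
    (hg : Continuous g) (hh : Continuous h) {a b c F G H : ℝ} (ha : 0 < a) (hb : 0 < b)
    (hc : 0 < c) (habc : 1 / a + 1 / b + 1 / c = 1) (hF0 : 0 ≤ F) (hG0 : 0 ≤ G)
    (hF : eLpNorm f (ENNReal.ofReal a) (volume.restrict cube) ≤ ENNReal.ofReal F)
    (hG : eLpNorm g (ENNReal.ofReal b) (volume.restrict cube) ≤ ENNReal.ofReal G)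
    (hH : eLpNorm h (ENNReal.ofReal c) (volume.restrict cube) ≤ ENNReal.ofReal H) :
    ∫⁻ x in cube, ‖f x‖ₑ * ‖g x‖ₑ * ‖h x‖ₑ ≤ ENNReal.ofReal (F * G * H) := by
  have e : ∀ (a : ℝ) (f : V → ℝ), 0 < a → eLpNorm f (ENNReal.ofReal a) (volume.restrict cube) =
      (∫⁻ x in cube, ‖f x‖ₑ ^ a) ^ (1 / a) := by
    intro a f ha
    rw [eLpNorm_eq_lintegral_rpow_enorm_toReal (ENNReal.ofReal_pos.mpr ha).ne'
      ENNReal.ofReal_ne_top, ENNReal.toReal_ofReal ha.le]
  refine (holder3 hf.enorm hg.enorm.measurable.aemeasurable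
    hh.enorm.measurable.aemeasurable ha hb hc habc).trans ?_
  rw [← e a f ha, ← e b g hb, ← e c h hc, ENNReal.ofReal_mul (mul_nonneg hF0 hG0),
    ENNReal.ofReal_mul hF0]
  gcongr

/-- the integral is bounded by the integral of the positive part -/
lemma int_le_of_lint {φ : V → ℝ} (hφ : Continuous φ) {B : ℝ} (hB : 0 ≤ B)
    (h : ∫⁻ x in cube, ENNReal.ofReal (φ x) ≤ ENNReal.ofReal B) : ∫ x in cube, φ x ≤ B := by
  rw [integral_eq_lintegral_pos_part_sub_lintegral_neg_part (integrableOn_cube hφ)]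
  have h1 : (∫⁻ x in cube, ENNReal.ofReal (φ x)).toReal ≤ B := by
    have := ENNReal.toReal_mono ENNReal.ofReal_ne_top h
    rwa [ENNReal.toReal_ofReal hB] at this
  have h2 : 0 ≤ (∫⁻ x in cube, ENNReal.ofReal (-φ x)).toReal := ENNReal.toReal_nonneg
  linarith

lemma ex_inv {σ : ℝ} : 1 / ex σ = (3 - 2 * σ) / 6 := by
  unfold ex
  rw [one_div_div]

/-- the term with the velocity -/
lemma term_g {q s1 t : ℝ} (hq : 0 < q) (hs0 : 1 / 2 ≤ s1) (hs1 : s1 < 3 / 2) (ht0 : 0 ≤ t)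
    (ht1 : t ≤ 1 / 2) (hst : s1 + t = 3 / q) : ∃ C : ℝ, 0 ≤ C ∧ ∀ (v : V → V) (E β s : ℝ)
    (g : V → ℝ), (∀ i, SP (fun y => v y i)) → energy v ≤ E → |s| = 1 → 0 ≤ β →
    AEStronglyMeasurable g (volume.restrict cube) →
    eLpNorm g (ENNReal.ofReal q) (volume.restrict cube) ≤ ENNReal.ofReal β →
    ∫⁻ x in cube, ‖g x‖ₑ * ‖‖v x‖‖ₑ * ‖‖hel s v x‖‖ₑ ≤
      ENNReal.ofReal (C * (β * (RX E v ^ (2 - 3 / q) * RY E v ^ (3 / q)))) := by
  obtain ⟨C1, hC10, hC1⟩ := emb_u hs0 hs1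
  obtain ⟨C2, hC20, hC2⟩ := emb_hel ht0 ht1
  refine ⟨C1 * C2, by positivity, fun v E β s g hv hE hs hβ hgm hg => ?_⟩
  have hE0 : 0 ≤ E := (energy_nonneg v).trans hE
  have hvc : Continuous v := continuous_pi fun i => (hv i).cont
  have h1 := ex_ge (show 0 ≤ s1 by linarith) hs1
  have h2 := ex_ge ht0 (show t < 3 / 2 by linarith)
  have hX := RX_nonneg E v
  have hY := RY_nonneg E v
  refine (holder3' hgm hvc.norm (hel_cont hv s).norm hq (by linarith : 0 < ex s1)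
    (by linarith : 0 < ex t) ?_ hβ (by positivity) hg (hC1 v E hv hE)
    (hC2 v E s hv hE0 hs)).trans ?_
  · rw [ex_inv, ex_inv]
    have : 1 / q = (s1 + t) / 3 := by rw [hst]; field_simp
    rw [this]
    ring
  · apply ENNReal.ofReal_le_ofReal
    apply le_of_eq
    have e1 : RX E v ^ (2 - 3 / q) = RX E v ^ (3 / 2 - s1) * RX E v ^ (1 / 2 - t) := by
      rw [← Real.rpow_add_of_nonneg hX (by linarith) (by linarith)]
      congr 1
      linarith
    have e2 : RY E v ^ (3 / q) = RY E v ^ (s1 - 1 / 2) * RY E v ^ (1 / 2 + t) := by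
      rw [← Real.rpow_add_of_nonneg hY (by linarith) (by linarith)]
      congr 1
      linarith
    rw [e1, e2]
    ring

/-- the exponents -/
lemma exists_split {q : ℝ} (hq : 3 / 2 < q) (hq6 : q ≤ 6) : ∃ s1 t : ℝ, 1 / 2 ≤ s1 ∧ s1 < 3 / 2 ∧
    0 ≤ t ∧ t ≤ 1 / 2 ∧ s1 + t = 3 / q := by
  have hq0 : 0 < q := by linarith
  have h1 : 1 / 2 ≤ 3 / q := by rw [le_div_iff₀ hq0]; linarith
  have h2 : 3 / q < 2 := by rw [div_lt_iff₀ hq0]; linarith
  rcases le_total (3 / q) 1 with h | h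
  · exact ⟨3 / q, 0, h1, by linarith, le_rfl, by norm_num, by ring⟩
  · exact ⟨(3 / q + 1) / 2, (3 / q - 1) / 2, by linarith, by linarith, by linarith, by linarith,
      by ring⟩

/-- the term without the velocity -/
lemma term_h {s : ℝ} (hs : 3 < s) : ∃ C : ℝ, 0 ≤ C ∧ ∀ (v : V → V) (E γ : ℝ)
    (g : V → ℝ), (∀ i, SP (fun y => v y i)) → energy v ≤ E → 0 ≤ γ →
    AEStronglyMeasurable g (volume.restrict cube) →
    eLpNorm g (ENNReal.ofReal s) (volume.restrict cube) ≤ ENNReal.ofReal γ →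
    ∫⁻ x in cube, ‖g x‖ₑ * ‖‖hel 1 v x‖‖ₑ * ‖‖hel (-1) v x‖‖ₑ ≤
      ENNReal.ofReal (C * (γ * (RX E v ^ (1 - 3 / s) * RY E v ^ (1 + 3 / s)))) := by
  have hs0 : 0 < s := by linarith
  have h1 : 3 / s < 1 := by rw [div_lt_iff₀ hs0]; linarith
  have h0 : 0 < 3 / s := by positivity
  set t : ℝ := 3 / s / 2 with ht
  have ht0 : 0 ≤ t := by positivity
  have ht1 : t ≤ 1 / 2 := by rw [ht]; linarith
  obtain ⟨C, hC0, hC⟩ := emb_hel ht0 ht1
  refine ⟨C * C, by positivity, fun v E γ g hv hE hγ hgm hg => ?_⟩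
  have hE0 : 0 ≤ E := (energy_nonneg v).trans hE
  have h2 := ex_ge ht0 (show t < 3 / 2 by linarith)
  have hX := RX_nonneg E v
  have hY := RY_nonneg E v
  refine (holder3' hgm (hel_cont hv 1).norm (hel_cont hv (-1)).norm hs0
    (by linarith : 0 < ex t) (by linarith : 0 < ex t) ?_ hγ (by positivity) hg
    (hC v E 1 hv hE0 (by norm_num)) (hC v E (-1) hv hE0 (by norm_num))).trans ?_
  · rw [ex_inv, ht]
    field_simp
    ring
  · apply ENNReal.ofReal_le_ofReal
    apply le_of_eq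
    have e1 : RX E v ^ (1 - 3 / s) = RX E v ^ (1 / 2 - t) * RX E v ^ (1 / 2 - t) := by
      rw [← Real.rpow_add_of_nonneg hX (by linarith) (by linarith)]
      congr 1
      rw [ht]; ring
    have e2 : RY E v ^ (1 + 3 / s) = RY E v ^ (1 / 2 + t) * RY E v ^ (1 / 2 + t) := by
      rw [← Real.rpow_add_of_nonneg hY (by linarith) (by linarith)]
      congr 1
      rw [ht]; ring
    rw [e1, e2]
    ring

/-- the triple product is controlled by `g` and `h` -/
def Ctrl (v : V → V) (g h : V → ℝ) : Prop := ∀ᵐ x ∂(volume.restrict cube), trip v x ≤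
  g x * ‖v x‖ * (‖hel 1 v x‖ + ‖hel (-1) v x‖) + h x * ‖hel 1 v x‖ * ‖hel (-1) v x‖

/-- **The production of the `H^(1/2)` norm.** -/
theorem prod_le {q s : ℝ} (hq : 3 / 2 < q) (hq6 : q ≤ 6) (hs : 3 < s) : ∃ C : ℝ, 0 ≤ C ∧
    ∀ (v : V → V) (E β γ : ℝ) (g h : V → ℝ), (∀ i, SP (fun y => v y i)) → energy v ≤ E →
    0 ≤ β → 0 ≤ γ → AEStronglyMeasurable g (volume.restrict cube) →
    AEStronglyMeasurable h (volume.restrict cube) →
    eLpNorm g (ENNReal.ofReal q) (volume.restrict cube) ≤ ENNReal.ofReal β →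
    eLpNorm h (ENNReal.ofReal s) (volume.restrict cube) ≤ ENNReal.ofReal γ → Ctrl v g h →
    ∫ x in cube, trip v x ≤ C * (β * (RX E v ^ (2 - 3 / q) * RY E v ^ (3 / q))) +
      C * (γ * (RX E v ^ (1 - 3 / s) * RY E v ^ (1 + 3 / s))) := by
  obtain ⟨s1, t, a1, a2, a3, a4, a5⟩ := exists_split hq hq6
  obtain ⟨C1, hC10, hC1⟩ := term_g (show 0 < q by linarith) a1 a2 a3 a4 a5
  obtain ⟨C2, hC20, hC2⟩ := term_h hs
  refine ⟨2 * C1 + C2, by positivity, fun v E β γ g h hv hE hβ hγ hgm hhm hg hh hc => ?_⟩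
  have hX := RX_nonneg E v
  have hY := RY_nonneg E v
  set P1 : ℝ := β * (RX E v ^ (2 - 3 / q) * RY E v ^ (3 / q)) with hP1
  set P2 : ℝ := γ * (RX E v ^ (1 - 3 / s) * RY E v ^ (1 + 3 / s)) with hP2
  have hP10 : 0 ≤ P1 := by positivity
  have hP20 : 0 ≤ P2 := by positivity
  have key : ∫ x in cube, trip v x ≤ C1 * P1 + C1 * P1 + C2 * P2 := by
    refine int_le_of_lint (trip_cont hv) (by positivity) ?_
    have hvc : Continuous v := continuous_pi fun i => (hv i).cont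
    have m1 : AEMeasurable (fun x => ‖g x‖ₑ * ‖‖v x‖‖ₑ * ‖‖hel 1 v x‖‖ₑ)
        (volume.restrict cube) :=
      (hgm.enorm.mul hvc.norm.enorm.measurable.aemeasurable).mul
        (hel_cont hv 1).norm.enorm.measurable.aemeasurable
    have m2 : AEMeasurable (fun x => ‖g x‖ₑ * ‖‖v x‖‖ₑ * ‖‖hel (-1) v x‖‖ₑ)
        (volume.restrict cube) :=
      (hgm.enorm.mul hvc.norm.enorm.measurable.aemeasurable).mul
        (hel_cont hv (-1)).norm.enorm.measurable.aemeasurable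
    calc ∫⁻ x in cube, ENNReal.ofReal (trip v x)
        ≤ ∫⁻ x in cube, (‖g x‖ₑ * ‖‖v x‖‖ₑ * ‖‖hel 1 v x‖‖ₑ +
            ‖g x‖ₑ * ‖‖v x‖‖ₑ * ‖‖hel (-1) v x‖‖ₑ) +
            ‖h x‖ₑ * ‖‖hel 1 v x‖‖ₑ * ‖‖hel (-1) v x‖‖ₑ := by
          refine lintegral_mono_ae ?_
          filter_upwards [hc] with x hx
          have e : (‖g x‖ₑ * ‖‖v x‖‖ₑ * ‖‖hel 1 v x‖‖ₑ +
            ‖g x‖ₑ * ‖‖v x‖‖ₑ * ‖‖hel (-1) v x‖‖ₑ) +
            ‖h x‖ₑ * ‖‖hel 1 v x‖‖ₑ * ‖‖hel (-1) v x‖‖ₑ =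
            ENNReal.ofReal (|g x| * ‖v x‖ * ‖hel 1 v x‖ + |g x| * ‖v x‖ * ‖hel (-1) v x‖ +
              |h x| * ‖hel 1 v x‖ * ‖hel (-1) v x‖) := by
            rw [ENNReal.ofReal_add (by positivity) (by positivity),
              ENNReal.ofReal_add (by positivity) (by positivity),
              ENNReal.ofReal_mul (by positivity), ENNReal.ofReal_mul (by positivity),
              ENNReal.ofReal_mul (by positivity), ENNReal.ofReal_mul (by positivity),
              ENNReal.ofReal_mul (by positivity), ENNReal.ofReal_mul (by positivity)]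
            simp only [← ofReal_norm, norm_norm, Real.norm_eq_abs, abs_norm]
          rw [e]
          apply ENNReal.ofReal_le_ofReal
          refine hx.trans ?_
          have b1 := le_abs_self (g x)
          have b2 := le_abs_self (h x)
          have c1 := norm_nonneg (v x)
          have c2 := norm_nonneg (hel 1 v x)
          have c3 := norm_nonneg (hel (-1) v x)
          calc g x * ‖v x‖ * (‖hel 1 v x‖ + ‖hel (-1) v x‖) +
              h x * ‖hel 1 v x‖ * ‖hel (-1) v x‖ ≤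
              |g x| * ‖v x‖ * (‖hel 1 v x‖ + ‖hel (-1) v x‖) +
              |h x| * ‖hel 1 v x‖ * ‖hel (-1) v x‖ := by gcongr
            _ = _ := by ring
      _ ≤ ENNReal.ofReal (C1 * P1) + ENNReal.ofReal (C1 * P1) + ENNReal.ofReal (C2 * P2) := by
          have m12 : AEMeasurable (fun x => ‖g x‖ₑ * ‖‖v x‖‖ₑ * ‖‖hel 1 v x‖‖ₑ +
            ‖g x‖ₑ * ‖‖v x‖‖ₑ * ‖‖hel (-1) v x‖‖ₑ) (volume.restrict cube) := m1.add m2
          rw [lintegral_add_left' m12, lintegral_add_left' m1]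
          refine add_le_add (add_le_add ?_ ?_) ?_
          · exact hC1 v E β 1 g hv hE (by norm_num) hβ hgm hg
          · exact hC1 v E β (-1) g hv hE (by norm_num) hβ hgm hg
          · exact hC2 v E γ h hv hE hγ hhm hh
      _ = _ := by
          rw [← ENNReal.ofReal_add (by positivity) (by positivity),
            ← ENNReal.ofReal_add (by positivity) (by positivity)]
  refine key.trans ?_
  have : 0 ≤ C2 * P1 + 2 * C1 * P2 := by positivity
  nlinarith

end Pool.Agent.X97.NSH
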